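import Pool.Agent.T6.H34.GK.Rel

/-!
# The absolute case
-/

set_option autoImplicit false
set_option maxHeartbeats 400000

namespace Pool.Agent.T6.H34.GK

open Pool.Agent.R895 (BlBundle act IsClass N1s N1 form coef integral semiample effective span
  nefCone effCone Normalizes IsPullback)

theorem id_isExt (n : ℕ) : IsExt id (LinearMap.id : (Fin n → ℂ) →ₗ[ℂ] (Fin n → ℂ)) := by
  classical
  intro u
  funext i
  show u i = ext id u i
  unfold ext
  rw [Finset.sum_eq_single i]
  · simp
  · intro a _ ha
    exact if_neg ha
  · intro ha
    exact absurd (Finset.mem_univ i) ha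

end Pool.Agent.T6.H34.GK
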