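import Pool.Agent.T6.H34.GK.Redu

/-!
# The cone of nef classes
-/

set_option autoImplicit false
set_option maxHeartbeats 400000

namespace Pool.Agent.T6.H34.GK

open Pool.Agent.R895 (BlBundle act IsClass N1s N1 form coef integral semiample effective span
  nefCone effCone Normalizes IsPullback)

open Matrix hiding IsHermitian
open Filter Topology
open Pool.Agent.W594.SYZ2 (IsHermitian)
open Pool.Agent.W594.SYZ2.TQ (h_add_right h_smul_right h_zero_left h_zero_right)
open Pool.Agent.Y167 (CData cone AffGrp Pol Cp cone_ind cone_add cone_smul cone_sum cone_le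
  mem_cone_self mem_cone_of_sum zero_mem_cone cone_cut cone_image)
open Pool.Agent.Y167.CC (LinGrp Preserves IsFundDomain)

section cut

variable {W : Type*} [AddCommGroup W] [Module ℝ W]

/-- The part of a cone where finitely many integral linear forms are nonnegative. -/
theorem cut_int {L : AddSubgroup W} (S : Finset W) (hS : ∀ a ∈ S, a ∈ L)
    (Ψ : Finset (W →ₗ[ℝ] ℝ)) (hΨ : ∀ φ ∈ Ψ, ∀ x ∈ L, ∃ n : ℤ, φ x = n) :
    ∃ S' : Finset W, (∀ a ∈ S', a ∈ L) ∧
      ∀ x, x ∈ cone S' ↔ x ∈ cone S ∧ ∀ φ ∈ Ψ, 0 ≤ φ x := by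
  classical
  induction Ψ using Finset.induction_on with
  | empty => exact ⟨S, hS, fun x => by simp⟩
  | insert φ Ψ _ ih =>
    obtain ⟨S1, hS1, h1⟩ := ih fun ψ hψ => hΨ ψ (Finset.mem_insert_of_mem hψ)
    obtain ⟨S2, hS2, h2⟩ := cone_cut S1 φ (fun a => a ∈ L) hS1 (by
      intro a ha b hb _ _
      obtain ⟨m, hm⟩ := hΨ φ (Finset.mem_insert_self _ _) a (hS1 a ha)
      obtain ⟨n, hn⟩ := hΨ φ (Finset.mem_insert_self _ _) b (hS1 b hb)
      rw [hm, hn]
      refine L.sub_mem ?_ ?_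
      · rw [Int.cast_smul_eq_zsmul]; exact L.zsmul_mem (hS1 b hb) m
      · rw [Int.cast_smul_eq_zsmul]; exact L.zsmul_mem (hS1 a ha) n)
    refine ⟨S2, hS2, fun x => ?_⟩
    rw [h2, h1, Finset.forall_mem_insert]
    tauto

end cut

section kernel

variable {r : ℕ} {h : (Fin r → ℂ) → (Fin r → ℂ) → ℂ}

/-- The ring of Gaussian integers. -/
def eisR : Subring ℂ where
  carrier := {z | IsGau z}
  mul_mem' := fun h1 h2 => IsGau.mul h1 h2
  one_mem' := IsGau.one
  add_mem' := fun h1 h2 => IsGau.add h1 h2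
  zero_mem' := IsGau.zero
  neg_mem' := fun h => IsGau.neg h

/-- A degenerate integral form has an integral vector in its kernel. -/
theorem exists_ker (D : Dat h) (hp : ∀ v, 0 ≤ (h v v).re) {v : Fin r → ℂ} (hv : v ≠ 0)
    (hv0 : (h v v).re = 0) : ∃ w, Lat w ∧ w ≠ 0 ∧ (h w w).re = 0 := by
  have h1 : ∀ w, h w v = 0 := by
    intro w
    have h2 := cs_of_psd D.herm hp w v
    rw [hv0, mul_zero] at h2
    exact Complex.normSq_eq_zero.1 (le_antisymm h2 (Complex.normSq_nonneg _))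
  have hmv : ∀ (w : Fin r → ℂ) (a : Fin r), h (Pi.single a 1) w =
      (Matrix.of (mx h) *ᵥ (star w)) a := by
    intro w a
    rw [herm_mx D.herm, Finset.sum_eq_single a]
    · unfold mulVec dotProduct
      refine Finset.sum_congr rfl fun b _ => ?_
      rw [Pi.single_eq_same, one_mul]
      rfl
    · intro b _ hb
      refine Finset.sum_eq_zero fun c _ => ?_
      rw [Pi.single_eq_of_ne hb, zero_mul, mul_zero]
    · intro ha
      exact absurd (Finset.mem_univ a) ha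
  have hdet : (Matrix.of (mx h)).det = 0 := by
    rw [← Matrix.exists_mulVec_eq_zero_iff]
    refine ⟨star v, by rwa [star_ne_zero], ?_⟩
    funext a
    rw [← hmv, h1]
    rfl
  let M' : Matrix (Fin r) (Fin r) eisR := Matrix.of fun a b =>
    ⟨mx h a b, D.int _ _ (lat_single a) (lat_single b)⟩
  have hM' : (eisR.subtype.mapMatrix M') = Matrix.of (mx h) := by
    ext a b
    rfl
  have hdet' : M'.det = 0 := by
    have h2 := RingHom.map_det eisR.subtype M'
    rw [hM', hdet] at h2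
    exact Subtype.ext h2
  obtain ⟨w', hw', hMw⟩ := Matrix.exists_mulVec_eq_zero_iff.2 hdet'
  set w : Fin r → ℂ := fun a => star ((w' a : ℂ)) with hw
  have hws : star w = fun a => (w' a : ℂ) := by
    funext a
    simp [hw]
  refine ⟨w, fun a => (w' a).2.star, fun h0 => hw' ?_, ?_⟩
  · funext a
    have h2 := congrFun h0 a
    have h3 : star ((w' a : ℂ)) = 0 := h2
    rw [star_eq_zero] at h3
    exact Subtype.ext h3
  · have h2 : ∀ a, h (Pi.single a 1) w = 0 := by
      intro a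
      rw [hmv, hws]
      have h3 := congrFun hMw a
      have h4 : ((M' *ᵥ w') a : ℂ) = (Matrix.of (mx h) *ᵥ fun a => (w' a : ℂ)) a := by
        unfold mulVec dotProduct
        rw [AddSubmonoidClass.coe_finsetSum]
        rfl
      rw [← h4, h3]
      rfl
    have h3 : h w w = 0 := by
      rw [herm_mx D.herm]
      have h4 : ∀ a, ∑ b, mx h a b * (w a * (starRingEnd ℂ) (w b)) = w a * h (Pi.single a 1) w := by
        intro a
        rw [hmv]
        unfold mulVec dotProduct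
        rw [Finset.mul_sum]
        refine Finset.sum_congr rfl fun b _ => ?_
        show mx h a b * (w a * (starRingEnd ℂ) (w b)) = w a * (mx h a b * (starRingEnd ℂ) (w b))
        ring
      refine Finset.sum_eq_zero fun a _ => ?_
      rw [h4, h2, mul_zero]
    rw [h3]
    rfl

end kernel

variable {ι : Type*} [Fintype ι] {r m : ℕ} {ρ : Fin r → ι}
  {j : (Fin r → ℂ) →ₗ[ℂ] (ι → ℂ)}

/-- The pullbacks by the automorphisms of the lattice. -/
structure IsPb (g : N1 (kum ι m) j ≃ₗ[ℝ] N1 (kum ι m) j)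
    (u : (Fin r → ℂ) ≃ₗ[ℂ] (Fin r → ℂ)) : Prop where
  lat : ∀ v, Lat v → Lat (u v)
  lat' : ∀ v, Lat v → Lat (u.symm v)
  form : ∀ x v w, form (g x) v w = form x (u v) (u w)
  coef : ∀ x, coef (g x) = coef x
  form' : ∀ x v w, Pool.Agent.R895.form (g.symm x) v w =
    Pool.Agent.R895.form x (u.symm v) (u.symm w)
  coef' : ∀ x, Pool.Agent.R895.coef (g.symm x) = Pool.Agent.R895.coef x
  int : ∀ x ∈ integral (kum ι m) j, g x ∈ integral (kum ι m) j
  int' : ∀ x ∈ integral (kum ι m) j, g.symm x ∈ integral (kum ι m) j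

theorem Nf_of {g : N1 (kum ι m) j → N1 (kum ι m) j} {u : (Fin r → ℂ) ≃ₗ[ℂ] (Fin r → ℂ)}
    (hu : ∀ v, Lat v → Lat (u v)) (h1 : ∀ x v w, form (g x) v w = form x (u v) (u w))
    (h2 : ∀ x, coef (g x) = coef x) {x : N1 (kum ι m) j} (hx : x ∈ Nf m j) : g x ∈ Nf m j := by
  have h3 : ∀ x v w, frm (g x) v w = frm x (u v) (u w) := by
    intro x v w
    unfold frm
    rw [h1]
  obtain ⟨k1, k2, k3⟩ := hx
  refine ⟨fun v => ?_, by rwa [h2], fun v hv hv0 => ?_⟩
  · rw [h3]
    exact k1 _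
  · rw [h3, h2]
    exact k3 _ (hu v hv) (by simpa using hv0)

namespace IsPb

variable {g : N1 (kum ι m) j ≃ₗ[ℝ] N1 (kum ι m) j} {u : (Fin r → ℂ) ≃ₗ[ℂ] (Fin r → ℂ)}

theorem nf (h : IsPb g u) {x : N1 (kum ι m) j} (hx : x ∈ Nf m j) : g x ∈ Nf m j :=
  Nf_of h.lat h.form h.coef hx

theorem nf' (h : IsPb g u) {x : N1 (kum ι m) j} (hx : x ∈ Nf m j) : g.symm x ∈ Nf m j :=
  Nf_of h.lat' h.form' h.coef' hx

theorem cl' (h : IsPb g u) {x : N1 (kum ι m) j}
    (hx : x ∈ AddSubgroup.closure (integral (kum ι m) j)) :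
    g.symm x ∈ AddSubgroup.closure (integral (kum ι m) j) := by
  have h1 : AddSubgroup.closure (integral (kum ι m) j) ≤
      (AddSubgroup.closure (integral (kum ι m) j)).comap
        (g.symm : N1 (kum ι m) j ≃+ N1 (kum ι m) j).toAddMonoidHom := by
    rw [AddSubgroup.closure_le]
    intro x hx
    exact AddSubgroup.subset_closure (h.int' x hx)
  exact h1 hx

end IsPb

/-- The functional given by the lattice vector `w`. -/
noncomputable def phi (m : ℕ) (j : (Fin r → ℂ) →ₗ[ℂ] (ι → ℂ)) (w : Fin r → ℂ) :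
    N1 (kum ι m) j →ₗ[ℝ] ℝ where
  toFun x := (frm x w w).re - coef x
  map_add' x y := by
    rw [frm_add, Complex.add_re, coef_add]
    ring
  map_smul' t x := by
    rw [frm_smul, Complex.re_ofReal_mul, coef_smul, RingHom.id_apply, smul_eq_mul]
    ring

theorem phi_apply (w : Fin r → ℂ) (x : N1 (kum ι m) j) :
    phi m j w x = (frm x w w).re - coef x := rfl

/-- Finitely many lattice vectors are enough. -/
theorem exists_vectors (F : Finset ((Fin r → ℂ) → (Fin r → ℂ) → ℂ))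
    (hF : ∀ z ∈ F, Dat z ∧ ∀ v, 0 ≤ (z v v).re) :
    ∃ T : Finset (Fin r → ℂ), (∀ t ∈ T, Lat t ∧ t ≠ 0) ∧
      ∀ w : Fin r → ℂ, Lat w → w ≠ 0 → ∃ t ∈ T, ∀ z ∈ F, (z t t).re ≤ (z w w).re := by
  classical
  let en := F.equivFin
  let v : {w : Fin r → ℂ // Lat w ∧ w ≠ 0} → (Fin F.card → ℕ) := fun w i =>
    ⌊((en.symm i).1 w.1 w.1).re⌋₊
  have hv : ∀ (w : {w : Fin r → ℂ // Lat w ∧ w ≠ 0}) (i : Fin F.card),
      ((v w i : ℕ) : ℝ) = ((en.symm i).1 w.1 w.1).re := by
    intro w i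
    obtain ⟨hD, hpos⟩ := hF _ (en.symm i).2
    obtain ⟨n, hn⟩ := hD.val w.2.1
    have h0 := hpos w.1
    simp only [v]
    rw [hn] at h0 ⊢
    have h2 : 0 ≤ n := by exact_mod_cast h0
    obtain ⟨k, rfl⟩ := Int.eq_ofNat_of_zero_le h2
    simp
  obtain ⟨T, hT, hTv⟩ := Pool.Agent.Y167.dickson v
  refine ⟨(hT.image Subtype.val).toFinset, fun t ht => ?_, fun w hw hw0 => ?_⟩
  · rw [Set.Finite.mem_toFinset] at ht
    obtain ⟨t, -, rfl⟩ := ht
    exact t.2
  · obtain ⟨t, ht, hle⟩ := hTv ⟨w, hw, hw0⟩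
    refine ⟨t.1, (Set.Finite.mem_toFinset _).2 ⟨t, ht, rfl⟩, fun z hz => ?_⟩
    have h1 := hle (en ⟨z, hz⟩)
    have h2 : ((v t (en ⟨z, hz⟩) : ℕ) : ℝ) ≤ (v ⟨w, hw, hw0⟩ (en ⟨z, hz⟩) : ℕ) := by
      exact_mod_cast h1
    rw [hv, hv, Equiv.symm_apply_apply] at h2
    exact h2

theorem re_six (z : ℂ) : (4 * z).re = 4 * z.re := by
  have : (4 : ℂ) = ((4 : ℝ) : ℂ) := by norm_num
  rw [this, Complex.re_ofReal_mul]

section gens

variable {F : Finset ((Fin r → ℂ) → (Fin r → ℂ) → ℂ)}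
  {y : ((Fin r → ℂ) → (Fin r → ℂ) → ℂ) → N1 (kum ι m) j} {e : N1 (kum ι m) j}

/-- The elements of the cone spanned by the forms in `F` and the class of `-Ẽ`. -/
theorem eq_sum (hy2 : ∀ z ∈ F, ∀ v w, frm (y z) v w = 4 * z v w)
    (hy3 : ∀ z ∈ F, coef (y z) = 0)
    (he2 : ∀ v w, frm e v w = 0) (he3 : coef e = 4)
    (c : ((Fin r → ℂ) → (Fin r → ℂ) → ℂ) → ℝ) {x : N1 (kum ι m) j}
    (hx : ∀ v w, frm x v w = ∑ z ∈ F, (c z : ℂ) * z v w) :
    x = (coef x / 4) • e + ∑ z ∈ F, (c z / 4) • y z := by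
  classical
  have hfs : ∀ (s : Finset ((Fin r → ℂ) → (Fin r → ℂ) → ℂ)) (v w : Fin r → ℂ), s ⊆ F →
      frm (∑ z ∈ s, (c z / 4) • y z) v w = ∑ z ∈ s, (c z : ℂ) * z v w := by
    intro s v w
    induction s using Finset.induction_on with
    | empty => intro _; rw [Finset.sum_empty, Finset.sum_empty, frm_zero]
    | insert z s hz ih =>
      intro hs
      rw [Finset.sum_insert hz, Finset.sum_insert hz, frm_add,
        ih fun a ha => hs (Finset.mem_insert_of_mem ha), frm_smul,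
        hy2 z (hs (Finset.mem_insert_self _ _))]
      push_cast
      ring
  have hcs : ∀ s : Finset ((Fin r → ℂ) → (Fin r → ℂ) → ℂ), s ⊆ F →
      coef (∑ z ∈ s, (c z / 4) • y z) = 0 := by
    intro s
    induction s using Finset.induction_on with
    | empty => intro _; rw [Finset.sum_empty, coef_zero]
    | insert z s hz ih =>
      intro hs
      rw [Finset.sum_insert hz, coef_add, ih fun a ha => hs (Finset.mem_insert_of_mem ha),
        coef_smul, hy3 z (hs (Finset.mem_insert_self _ _))]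
      ring
  refine N1_ext' (fun v w => ?_) ?_
  · rw [hx, frm_add, hfs F v w (Finset.Subset.refl _), frm_smul, he2, mul_zero, zero_add]
  · rw [coef_add, hcs F (Finset.Subset.refl _), coef_smul, he3]
    ring

theorem cone_props [DecidableEq (N1 (kum ι m) j)] (hF : ∀ z ∈ F, Dat z ∧ ∀ v, 0 ≤ (z v v).re)
    (hy2 : ∀ z ∈ F, ∀ v w, frm (y z) v w = 4 * z v w)
    (hy3 : ∀ z ∈ F, coef (y z) = 0)
    (he2 : ∀ v w, frm e v w = 0) (he3 : coef e = 4) {a : N1 (kum ι m) j}
    (ha : a ∈ cone (insert e (F.image y))) : (∀ v, 0 ≤ (frm a v v).re) ∧ 0 ≤ coef a ∧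
      ∀ w t : Fin r → ℂ, (∀ z ∈ F, (z t t).re ≤ (z w w).re) →
        (frm a t t).re ≤ (frm a w w).re := by
  refine cone_ind (p := fun a => (∀ v, 0 ≤ (frm a v v).re) ∧ 0 ≤ coef a ∧
    ∀ w t : Fin r → ℂ, (∀ z ∈ F, (z t t).re ≤ (z w w).re) →
      (frm a t t).re ≤ (frm a w w).re) ?_ ?_ ?_ ?_ ha
  · simp [frm_zero, coef_zero]
  · rintro x y ⟨h1, h2, h3⟩ ⟨k1, k2, k3⟩
    refine ⟨fun v => ?_, by rw [coef_add]; exact add_nonneg h2 k2, fun w t hwt => ?_⟩
    · rw [frm_add, Complex.add_re]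
      exact add_nonneg (h1 v) (k1 v)
    · rw [frm_add, frm_add, Complex.add_re, Complex.add_re]
      exact add_le_add (h3 w t hwt) (k3 w t hwt)
  · rintro s x hs ⟨h1, h2, h3⟩
    refine ⟨fun v => ?_, by rw [coef_smul]; exact mul_nonneg hs h2, fun w t hwt => ?_⟩
    · rw [frm_smul, Complex.re_ofReal_mul]
      exact mul_nonneg hs (h1 v)
    · rw [frm_smul, frm_smul, Complex.re_ofReal_mul, Complex.re_ofReal_mul]
      exact mul_le_mul_of_nonneg_left (h3 w t hwt) hs
  · intro a ha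
    rcases Finset.mem_insert.1 ha with rfl | h
    · refine ⟨fun v => ?_, by rw [he3]; norm_num, fun w t _ => ?_⟩
      · rw [he2]
        simp
      · rw [he2, he2]
    · obtain ⟨z, hz, rfl⟩ := Finset.mem_image.1 h
      refine ⟨fun v => ?_, by rw [hy3 z hz], fun w t hwt => ?_⟩
      · rw [hy2 z hz, re_six]
        have := (hF z hz).2 v
        positivity
      · rw [hy2 z hz, hy2 z hz, re_six, re_six]
        have := hwt z hz
        linarith

end gens

/-- **The covering.** -/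
theorem covering [Nonempty ι] (m : ℕ) (hj : IsExt ρ j) (hρ : Function.Injective ρ) :
    ∃ F₁ : Finset (N1 (kum ι m) j),
      (∀ a ∈ F₁, a ∈ AddSubgroup.closure (integral (kum ι m) j) ∧ a ∈ Nf m j) ∧
      ∀ x ∈ Nf m j, (∃ t : ℝ, 0 < t ∧ ∀ v, t * (std v v).re ≤ (frm x v v).re) →
        ∃ g u, IsPb g u ∧ g x ∈ cone F₁ := by
  classical
  obtain ⟨F, hF, hred⟩ := red_cls hj m
  choose! y hy1 hy2 hy3' using fun z (hz : z ∈ F) => exists_cls m hj hρ (hF z hz).1 0
  have hy3 : ∀ z ∈ F, coef (y z) = 0 := fun z hz => by rw [hy3' z hz]; norm_num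
  have hzero : Dat fun _ _ : Fin r → ℂ => (0 : ℂ) :=
    ⟨⟨fun _ _ _ => by simp, fun _ _ _ => by simp, fun _ _ => by simp⟩, fun _ _ _ _ => IsGau.zero⟩
  obtain ⟨e, he1, he2', he3'⟩ := exists_cls m hj hρ hzero 1
  have he2 : ∀ v w, frm e v w = 0 := fun v w => by rw [he2', mul_zero]
  have he3 : coef e = 4 := by rw [he3']; norm_num
  obtain ⟨T, hT, hTle⟩ := exists_vectors F hF
  have hS₀L : ∀ a ∈ insert e (F.image y), a ∈ AddSubgroup.closure (integral (kum ι m) j) := by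
    intro a ha
    rcases Finset.mem_insert.1 ha with rfl | h
    · exact AddSubgroup.subset_closure he1
    · obtain ⟨z, hz, rfl⟩ := Finset.mem_image.1 h
      exact AddSubgroup.subset_closure (hy1 z hz)
  obtain ⟨S', hS', hS'c⟩ := cut_int (insert e (F.image y)) hS₀L (T.image (phi m j)) (by
    intro φ hφ x hx
    obtain ⟨t, ht, rfl⟩ := Finset.mem_image.1 hφ
    obtain ⟨D, n, hn⟩ := eis_of_mem hj hx
    obtain ⟨k, hk⟩ := D.val (hT t ht).1
    exact ⟨k - n, by rw [phi_apply, hk, hn]; push_cast; rfl⟩)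
  refine ⟨S', fun a ha => ⟨hS' a ha, ?_⟩, ?_⟩
  · obtain ⟨h1, h2⟩ := (hS'c a).1 (mem_cone_self ha)
    obtain ⟨k1, k2, k3⟩ := cone_props hF hy2 hy3 he2 he3 h1
    refine ⟨k1, k2, fun w hw hw0 => ?_⟩
    obtain ⟨t, ht, hle⟩ := hTle w hw hw0
    refine le_trans ?_ (k3 w t hle)
    have h3 := h2 _ (Finset.mem_image_of_mem (phi m j) ht)
    rw [phi_apply] at h3
    linarith
  · intro x hx hpd
    obtain ⟨u, hu1, hu2, c, hc, hsum⟩ := hred x hpd
    have hu1' : ∀ v, Lat v → Lat (u.symm.symm v) := fun v hv => by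
      rw [LinearEquiv.symm_symm]; exact hu1 v hv
    obtain ⟨g, g1, g2, g3, g4, g5, g6⟩ := exists_pull (u := u.symm) m hj hρ hu2 hu1'
    have hg : IsPb g u.symm := ⟨hu2, hu1', g1, g2, g3, g4, g5, g6⟩
    have hgx : ∀ v w, frm (g x) v w = ∑ z ∈ F, (c z : ℂ) * z v w := by
      intro v w
      have h2 : frm (g x) v w = frm x (u.symm v) (u.symm w) := by
        unfold frm
        rw [g1]
      rw [h2, hsum]
      refine Finset.sum_congr rfl fun z _ => ?_
      rw [u.apply_symm_apply, u.apply_symm_apply]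
    have h1 := eq_sum hy2 hy3 he2 he3 c hgx
    have hc0 : 0 ≤ coef (g x) / 4 := by
      rw [g2]
      exact div_nonneg hx.2.1 (by norm_num)
    refine ⟨g, u.symm, hg, (hS'c _).2 ⟨?_, fun φ hφ => ?_⟩⟩
    · rw [h1]
      refine cone_add (cone_smul (mem_cone_self (Finset.mem_insert_self _ _)) hc0)
        (mem_cone_of_sum F _ _ (fun z hz => Finset.mem_insert_of_mem
          (Finset.mem_image_of_mem _ hz)) fun z _ => div_nonneg (hc z) (by norm_num))
    · obtain ⟨t, ht, rfl⟩ := Finset.mem_image.1 hφ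
      rw [phi_apply]
      have := (hg.nf hx).2.2 t (hT t ht).1 (hT t ht).2
      linarith

end Pool.Agent.T6.H34.GK
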