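import Pool.Agent.T6.H34.GK.Gau

/-!
# Inequalities for hermitian forms over the Gaussian integers
-/

set_option autoImplicit false
set_option maxHeartbeats 400000

namespace Pool.Agent.T6.H34.GK

open Complex

theorem pair_aux (z w : ℝ) (hw0 : 0 ≤ w) :
    ∃ a b : ℤ, (z - a) ^ 2 + (z - w - b) ^ 2 ≤ 1 / 2 - w + w ^ 2 := by
  have h1 := abs_le.1 (abs_sub_round z)
  obtain ⟨h2, h3⟩ := h1
  rcases le_or_gt (w - 1 / 2) (z - round z) with h4 | h4
  · refine ⟨round z, round z, ?_⟩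
    generalize (round z : ℝ) = r at *
    nlinarith [mul_nonneg (sub_nonneg.2 h3) (sub_nonneg.2 h4)]
  · refine ⟨round z, round z - 1, ?_⟩
    push_cast
    generalize (round z : ℝ) = r at *
    nlinarith [mul_nonneg (sub_nonneg.2 h2) (sub_nonneg.2 h4.le)]

theorem pair_real (z w : ℝ) :
    ∃ a b : ℤ, (z - a) ^ 2 + (z - w - b) ^ 2 ≤ 1 / 2 - |w| + w ^ 2 := by
  rcases le_total 0 w with h | h
  · rw [abs_of_nonneg h]
    exact pair_aux z w h
  · obtain ⟨a, b, hab⟩ := pair_aux (-z) (-w) (by linarith)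
    refine ⟨-a, -b, ?_⟩
    rw [abs_of_nonpos h]
    push_cast
    nlinarith

/-- The number `1 - |Re w| - |Im w| + |w|²`. -/
noncomputable def sz (w : ℂ) : ℝ := 1 - |w.re| - |w.im| + normSq w

theorem pair_cpx (z w : ℂ) : ∃ a b, IsGau a ∧ IsGau b ∧
    normSq (z - a) + normSq (z - w - b) ≤ sz w := by
  obtain ⟨a, b, h1⟩ := pair_real z.re w.re
  obtain ⟨c, d, h2⟩ := pair_real z.im w.im
  refine ⟨(a : ℂ) + c * I, (b : ℂ) + d * I, ⟨a, c, rfl⟩, ⟨b, d, rfl⟩, ?_⟩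
  unfold sz
  rw [normSq_apply, normSq_apply, normSq_apply]
  simp only [sub_re, sub_im, (I_cases _ _).1, (I_cases _ _).2]
  nlinarith

theorem sz_unit {ε : ℂ} (h : ε = 1 ∨ ε = -1 ∨ ε = I ∨ ε = -I) (w : ℂ) : sz (ε * w) = sz w := by
  unfold sz
  rcases h with rfl | rfl | rfl | rfl
  · rw [one_mul]
  · simp
  · simp
    ring
  · simp
    ring

theorem sz_le {w : ℂ} (h1 : |w.re| ≤ 1 / 2) (h2 : |w.im| ≤ 1 / 2) :
    0 ≤ sz w ∧ sz w ≤ 1 - normSq w := by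
  unfold sz
  rw [normSq_apply]
  have h3 := abs_mul_abs_self w.re
  have h4 := abs_mul_abs_self w.im
  have h5 := abs_nonneg w.re
  have h6 := abs_nonneg w.im
  rw [← h3, ← h4]
  constructor <;> nlinarith

theorem isGau_unit {ε : ℂ} (h : ε = 1 ∨ ε = -1 ∨ ε = I ∨ ε = -I) : IsGau ε := by
  rcases h with rfl | rfl | rfl | rfl
  · exact IsGau.one
  · exact IsGau.one.neg
  · exact IsGau.omega
  · exact IsGau.omega.neg

/-- A reduced number and its translate by a suitable unit. -/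
theorem exists_unit {z : ℂ} (h1 : |z.re| ≤ 1 / 2) (h2 : |z.im| ≤ 1 / 2) :
    ∃ ε, (ε = 1 ∨ ε = -1 ∨ ε = I ∨ ε = -I) ∧ normSq z + normSq (z - ε) ≤ 1 := by
  obtain ⟨h3, h4⟩ := abs_le.1 h1
  obtain ⟨h5, h6⟩ := abs_le.1 h2
  rcases le_total |z.im| |z.re| with h | h
  · have h' := mul_self_le_mul_self (abs_nonneg _) h
    rw [abs_mul_abs_self, abs_mul_abs_self] at h'
    rcases le_total 0 z.re with h0 | h0
    · refine ⟨1, Or.inl rfl, ?_⟩
      rw [normSq_apply, normSq_apply]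
      simp only [sub_re, sub_im, one_re, one_im]
      nlinarith
    · refine ⟨-1, Or.inr (Or.inl rfl), ?_⟩
      rw [normSq_apply, normSq_apply]
      simp only [sub_re, sub_im, neg_re, neg_im, one_re, one_im]
      nlinarith
  · have h' := mul_self_le_mul_self (abs_nonneg _) h
    rw [abs_mul_abs_self, abs_mul_abs_self] at h'
    rcases le_total 0 z.im with h0 | h0
    · refine ⟨I, Or.inr (Or.inr (Or.inl rfl)), ?_⟩
      rw [normSq_apply, normSq_apply]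
      simp only [sub_re, sub_im, I_re, I_im]
      nlinarith
    · refine ⟨-I, Or.inr (Or.inr (Or.inr rfl)), ?_⟩
      rw [normSq_apply, normSq_apply]
      simp only [sub_re, sub_im, neg_re, neg_im, I_re, I_im]
      nlinarith

/-- The covering radius of a binary lattice. -/
theorem cov2 {m0 m1 : ℝ} (h0 : 0 ≤ m0) (h1 : 0 ≤ m1) (μ ν l : ℂ) :
    ∃ a b, IsGau a ∧ IsGau b ∧
      m0 * normSq (a + μ * b + ν) + m1 * normSq (b + l) ≤ (m1 + m0 * sz μ) / 2 := by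
  obtain ⟨c, hc, hc1, hc2⟩ := exists_near' l
  obtain ⟨ε, hε, hε1⟩ := exists_unit hc1 hc2
  obtain ⟨a, b, ha, hb, hab⟩ := pair_cpx (ν - μ * c) (ε * μ)
  rw [sz_unit hε] at hab
  have e1 : normSq (-a + μ * (-c) + ν) = normSq (ν - μ * c - a) := by
    congr 1; ring
  have e2 : normSq (-b + μ * (-c - ε) + ν) = normSq (ν - μ * c - ε * μ - b) := by
    congr 1; ring
  have e3 : normSq (-c + l) = normSq (l - c) := by
    congr 1; ring
  have e4 : normSq (-c - ε + l) = normSq (l - c - ε) := by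
    congr 1; ring
  have h2 := mul_le_mul_of_nonneg_left hab h0
  have h3 := mul_le_mul_of_nonneg_left hε1 h1
  by_cases h4 : m0 * normSq (-a + μ * (-c) + ν) + m1 * normSq (-c + l) ≤ (m1 + m0 * sz μ) / 2
  · exact ⟨-a, -c, ha.neg, hc.neg, h4⟩
  · refine ⟨-b, -c - ε, hb.neg, hc.neg.sub (isGau_unit hε), ?_⟩
    push Not at h4
    rw [e1, e3] at h4
    rw [e2, e4]
    linarith

/-- The covering radius of a reduced binary lattice. -/
theorem cov2' {m0 m1 : ℝ} (h0 : 0 ≤ m0) (h1 : 0 ≤ m1) {μ : ℂ}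
    (hmin : ∀ c, IsGau c → m0 ≤ m0 * normSq (c + μ) + m1) (ν l : ℂ) :
    ∃ a b, IsGau a ∧ IsGau b ∧
      m0 * normSq (a + μ * b + ν) + m1 * normSq (b + l) ≤ m1 ∧
      m0 * normSq (a + μ * b + ν) + m1 * normSq (b + l) ≤ (m0 + m1) / 2 := by
  obtain ⟨c, hc, hc1, hc2⟩ := exists_near' μ
  obtain ⟨a, b, ha, hb, hab⟩ := cov2 h0 h1 (μ - c) ν l
  obtain ⟨h2, h3⟩ := sz_le hc1 hc2
  have h4 := hmin _ hc.neg
  have e1 : normSq (-c + μ) = normSq (μ - c) := by congr 1; ring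
  rw [e1] at h4
  have e2 : a + (μ - c) * b + ν = (a - c * b) + μ * b + ν := by ring
  rw [e2] at hab
  have h5 := mul_le_mul_of_nonneg_left h3 h0
  have h6 : sz (μ - c) ≤ 1 := by
    have := normSq_nonneg (μ - c)
    linarith
  have h7 := mul_le_mul_of_nonneg_left h6 h0
  exact ⟨a - c * b, b, ha.sub (hc.mul hb), hb, by linarith, by linarith⟩

/-- The product of the last two coefficients of a reduced ternary form. -/
theorem w3_aux {t s u v : ℝ} (hu0 : 0 ≤ u) (hu : u ≤ 1 / 2) (hv0 : 0 ≤ v) (hvu : v ≤ u)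
    (hs : 1 / 2 * t ≤ s) (ht : 1 ≤ u ^ 2 + v ^ 2 + t)
    (h1 : 1 ≤ s + (t + (1 - u - v + (u ^ 2 + v ^ 2))) / 2) : 1 / 4 ≤ t * s := by
  have ht2 : 1 / 2 ≤ t := by nlinarith
  rcases le_or_gt (1 / 2) (t ^ 2) with h2 | h2
  · nlinarith
  · set w : ℝ := Real.sqrt (3 / 4 - t) with hw
    have ht3 : t < 3 / 4 := by nlinarith
    have hw2 : w ^ 2 = 3 / 4 - t := Real.sq_sqrt (by linarith)
    have hw0 : 0 ≤ w := Real.sqrt_nonneg _
    have hw1 : w ≤ 1 / 2 := by nlinarith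
    have hvw : w ≤ v := by
      by_contra h
      push Not at h
      nlinarith
    have h3 : (1 / 2 - u) * (1 / 2 + u) ≤ (v - w) * (v + w) := by nlinarith
    have h4 : (1 / 2 + u) * (1 / 2 - u) ^ 2 ≤ (1 / 2 + u) * ((v - w) * (1 / 2 - u)) := by
      have h5 : (1 / 2 - u) * ((1 / 2 - u) * (1 / 2 + u)) ≤ (1 / 2 - u) * ((v - w) * (v + w)) :=
        mul_le_mul_of_nonneg_left h3 (by linarith)
      have h6 : (v - w) * (v + w) ≤ (v - w) * (1 / 2 + u) :=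
        mul_le_mul_of_nonneg_left (by linarith) (by linarith)
      have h7 := mul_le_mul_of_nonneg_left h6 (sub_nonneg.2 hu)
      nlinarith
    have h5 : (1 / 2 - u) ^ 2 ≤ (v - w) * (1 / 2 - u) := le_of_mul_le_mul_left h4 (by linarith)
    have h6 : (v - w) * (1 / 2 - u) ≤ (v - w) * (1 - v - w) :=
      mul_le_mul_of_nonneg_left (by linarith) (by linarith)
    have h7 : 1 / 4 + w / 2 ≤ s := by nlinarith
    have hw3 : 0 ≤ 4 * w ^ 2 + 4 * w - 1 := by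
      by_contra h
      push Not at h
      have h8 : 4 * w ^ 2 - 4 * w - 1 < 0 := by linarith
      have h9 := mul_pos_of_neg_of_neg h h8
      have h10 : t = 3 / 4 - w ^ 2 := by linarith
      rw [h10] at h2
      have h11 : (4 * w ^ 2 + 4 * w - 1) * (4 * w ^ 2 - 4 * w - 1) =
          16 * ((3 / 4 - w ^ 2) ^ 2 - 1 / 2) := by ring
      rw [h11] at h9
      linarith
    have h8 : t = 3 / 4 - w ^ 2 := by linarith
    have h9 := mul_nonneg (sub_nonneg.2 hw1) hw3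
    have h10 : t * (1 / 4 + w / 2) ≤ t * s := mul_le_mul_of_nonneg_left h7 (by linarith)
    rw [h8] at h10 ⊢
    nlinarith

theorem w3 {m0 m1 m2 u v : ℝ} (h0 : 0 < m0) (hu0 : 0 ≤ u) (hu : u ≤ 1 / 2) (hv0 : 0 ≤ v)
    (hv : v ≤ 1 / 2) (hs : 1 / 2 * m1 ≤ m2) (ht : m0 ≤ m0 * (u ^ 2 + v ^ 2) + m1)
    (h1 : m0 ≤ m2 + (m1 + m0 * (1 - u - v + (u ^ 2 + v ^ 2))) / 2) :
    1 / 4 * m0 ^ 2 ≤ m1 * m2 := by
  have e1 : m1 = m1 / m0 * m0 := by field_simp
  have e2 : m2 = m2 / m0 * m0 := by field_simp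
  set t := m1 / m0 with ht'
  set s := m2 / m0 with hs'
  have k1 : 1 / 2 * t ≤ s := by
    rw [e1, e2] at hs
    have : 1 / 2 * t * m0 ≤ s * m0 := by linarith
    exact le_of_mul_le_mul_right this h0
  have k2 : 1 ≤ u ^ 2 + v ^ 2 + t := by
    rw [e1] at ht
    have : 1 * m0 ≤ (u ^ 2 + v ^ 2 + t) * m0 := by linarith
    exact le_of_mul_le_mul_right this h0
  have k3 : 1 ≤ s + (t + (1 - u - v + (u ^ 2 + v ^ 2))) / 2 := by
    rw [e1, e2] at h1
    have : 1 * m0 ≤ (s + (t + (1 - u - v + (u ^ 2 + v ^ 2))) / 2) * m0 := by linarith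
    exact le_of_mul_le_mul_right this h0
  have k4 : 1 / 4 ≤ t * s := by
    rcases le_total v u with h | h
    · exact w3_aux hu0 hu hv0 h k1 k2 k3
    · exact w3_aux hv0 hv hu0 h k1 (by linarith) (by linarith)
  rw [e1, e2]
  nlinarith [mul_pos h0 h0]

theorem amgm3 {x y z : ℝ} (hx : 0 ≤ x) (hy : 0 ≤ y) (hz : 0 ≤ z) :
    27 * (x * y * z) ≤ (x + y + z) ^ 3 := by
  nlinarith [mul_nonneg hx (sq_nonneg (y - z)), mul_nonneg hy (sq_nonneg (z - x)),
    mul_nonneg hz (sq_nonneg (x - y)), mul_nonneg hx (sq_nonneg (x - y)),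
    mul_nonneg hx (sq_nonneg (x - z)), mul_nonneg hy (sq_nonneg (y - z)),
    mul_nonneg hy (sq_nonneg (y - x)), mul_nonneg hz (sq_nonneg (z - x)),
    mul_nonneg hz (sq_nonneg (z - y))]

theorem le_of_cube {x y : ℝ} (hy : 0 ≤ y) (h : x ^ 3 ≤ y ^ 3) : x ≤ y := by
  by_contra hc
  push Not at hc
  have := pow_lt_pow_left₀ hc hy (by norm_num : (3 : ℕ) ≠ 0)
  linarith

theorem p_ineq {t c : ℝ} (ht : 1 / 2 ≤ t) (ht1 : t ≤ 1) (hc : 0 ≤ c)
    (hbad : 27 * t ^ 2 * (1 + c) < (2 * t + 1) ^ 3) : t * (1 + 5 * c / 3) ^ 3 ≤ 1 + c := by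
  have h1 : c * (27 * t ^ 2) ≤ (1 - t) ^ 2 * (8 * t + 1) := by nlinarith
  have h2 : (1 - t) ^ 2 * (8 * t + 1) ≤ 27 / 5 * t ^ 2 := by
    have : 0 ≤ (t - 1 / 2) * (1 - t) := mul_nonneg (by linarith) (by linarith)
    nlinarith [mul_nonneg (sub_nonneg.2 ht) (mul_nonneg (sub_nonneg.2 ht) (sub_nonneg.2 ht1))]
  have h3 : c ≤ 1 / 5 := by
    have h4 : c * (27 * t ^ 2) ≤ 1 / 5 * (27 * t ^ 2) := by linarith
    exact le_of_mul_le_mul_right h4 (by positivity)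
  have h4 : (1 + 5 * c / 3) ^ 3 ≤ 1 + 185 / 27 * c := by
    have h5 : 0 ≤ c * (1 / 5 - c) := mul_nonneg hc (by linarith)
    have h6 : 0 ≤ c * (c * (1 / 5 - c)) := mul_nonneg hc h5
    nlinarith
  have h5 : t * (1 + 5 * c / 3) ^ 3 ≤ t * (1 + 185 / 27 * c) :=
    mul_le_mul_of_nonneg_left h4 (by linarith)
  refine h5.trans ?_
  have h6 : 27 * t ^ 2 * (c * (185 / 27 * t - 1)) ≤ 27 * t ^ 2 * (1 - t) := by
    have h7 : 0 ≤ 185 / 27 * t - 1 := by linarith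
    have h8 := mul_le_mul_of_nonneg_right h1 h7
    have h9 : (1 - t) * (8 * t + 1) * (185 / 27 * t - 1) ≤ 27 * t ^ 2 := by
      nlinarith [mul_nonneg (sub_nonneg.2 ht) (sub_nonneg.2 ht1),
        mul_nonneg (sub_nonneg.2 ht) (mul_nonneg (sub_nonneg.2 ht) (sub_nonneg.2 ht)),
        mul_nonneg (sub_nonneg.2 ht) (mul_nonneg (sub_nonneg.2 ht) (sub_nonneg.2 ht1))]
    have h10 := mul_le_mul_of_nonneg_left h9 (sub_nonneg.2 ht1)
    nlinarith
  have h7 := le_of_mul_le_mul_left h6 (by positivity)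
  linarith

/-- The final inequality. -/
theorem fin3 {m0 m1 m2 b0 b1 b2 : ℝ} (h0 : 0 < m0) (h1 : 0 < m1) (h2 : 0 < m2) (hb0 : 0 < b0)
    (hb1 : 0 < b1) (hb2 : 0 < b2) (hc2 : 1 ≤ b2) (hc1 : 1 / 2 ≤ b1 * b2)
    (hc0 : 1 / 4 ≤ b0 * b1 * b2) (k1 : m0 ≤ 2 * m1) (k2 : m1 ≤ 2 * m2)
    (k3 : 1 / 4 * m0 ^ 2 ≤ m1 * m2) :
    7 / 6 * m0 ≤ m0 * b0 + m1 * b1 + m2 * b2 ∧
    (m2 + m1 ≤ m0 * b0 + m1 * b1 + m2 * b2 ∨ m2 + (m0 + m1) / 2 ≤ m0 * b0 + m1 * b1 + m2 * b2) ∧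
    (m1 + m0 / 2 ≤ m0 * b0 + m1 * b1 + m2 * b2 ∨ 5 * m2 - m1 ≤ m0 * b0 + m1 * b1 + m2 * b2) := by
  have hS : 27 / 4 * (m0 * m1 * m2) ≤ (m0 * b0 + m1 * b1 + m2 * b2) ^ 3 := by
    refine le_trans ?_ (amgm3 (mul_pos h0 hb0).le (mul_pos h1 hb1).le (mul_pos h2 hb2).le)
    have := mul_le_mul_of_nonneg_left hc0 (mul_pos (mul_pos h0 h1) h2).le
    linarith
  have hS0 : 0 ≤ m0 * b0 + m1 * b1 + m2 * b2 := by positivity
  have v1 : 3 / 2 ≤ b0 + b1 + 1 / 2 * b2 := by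
    refine le_of_cube (by positivity) ?_
    have := amgm3 hb0.le hb1.le (mul_pos (by norm_num : (0 : ℝ) < 1 / 2) hb2).le
    nlinarith
  have v2 : 1 ≤ b1 + 1 / 2 * b2 := by
    nlinarith [sq_nonneg (b1 - 1 / 2 * b2)]
  have v3 : 3 / 4 ≤ b0 + 1 / 2 * b1 + 1 / 4 * b2 := by
    refine le_of_cube (by positivity) ?_
    have := amgm3 hb0.le (mul_pos (by norm_num : (0 : ℝ) < 1 / 2) hb1).le
      (mul_pos (by norm_num : (0 : ℝ) < 1 / 4) hb2).le
    nlinarith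
  refine ⟨?_, ?_, ?_⟩
  · refine le_of_cube hS0 (le_trans ?_ hS)
    have := mul_le_mul_of_nonneg_left k3 h0.le
    have h3 : 0 < m0 ^ 3 := by positivity
    nlinarith
  · rcases le_total m0 m1 with h | h
    · right
      nlinarith [mul_le_mul_of_nonneg_left v1 h0.le,
        mul_le_mul_of_nonneg_left v2 (sub_nonneg.2 h),
        mul_le_mul_of_nonneg_left hc2 (sub_nonneg.2 k2)]
    · left
      nlinarith [mul_le_mul_of_nonneg_left v1 (sub_nonneg.2 k1),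
        mul_le_mul_of_nonneg_left v3 (sub_nonneg.2 h),
        mul_le_mul_of_nonneg_left hc2 (sub_nonneg.2 k2)]
  · rcases le_total m0 m1 with h | h
    · left
      nlinarith [mul_le_mul_of_nonneg_left v1 h0.le,
        mul_le_mul_of_nonneg_left v2 (sub_nonneg.2 h),
        mul_le_mul_of_nonneg_left hc2 (sub_nonneg.2 k2)]
    · by_cases hg : (m1 + m0 / 2) ^ 3 ≤ 27 / 4 * (m0 * m1 * m2)
      · left
        exact le_of_cube hS0 (hg.trans hS)
      · right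
        push Not at hg
        refine le_of_cube hS0 (le_trans ?_ hS)
        have e1 : m1 = m1 / m0 * m0 := by field_simp
        have e2 : m2 = 1 / 2 * m1 * (1 + (2 * m2 / m1 - 1)) := by field_simp; ring
        set t := m1 / m0 with ht
        set c := 2 * m2 / m1 - 1 with hc
        have ht0 : 1 / 2 ≤ t := by
          rw [ht, le_div_iff₀ h0]; linarith
        have ht1 : t ≤ 1 := by
          rw [ht, div_le_one h0]; exact h
        have hc0 : 0 ≤ c := by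
          rw [hc, sub_nonneg, le_div_iff₀ h1]; linarith
        have hm03 : 0 < m0 ^ 3 := by positivity
        have hbad : 27 * t ^ 2 * (1 + c) < (2 * t + 1) ^ 3 := by
          rw [e2, e1] at hg
          have : 27 * t ^ 2 * (1 + c) * m0 ^ 3 < (2 * t + 1) ^ 3 * m0 ^ 3 := by nlinarith
          exact lt_of_mul_lt_mul_right this hm03.le
        have hp := p_ineq ht0 ht1 hc0 hbad
        rw [e2, e1]
        have h3 : 0 ≤ 27 / 8 * t ^ 2 * m0 ^ 3 := by positivity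
        have h4 := mul_le_mul_of_nonneg_left hp h3
        nlinarith

end Pool.Agent.T6.H34.GK
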