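import Pool.Agent.T6.H34.GK.Red
import Pool.Agent.T6.H34.GK.Ineq

/-!
# A lower bound for the trace of a product of two positive forms
-/

set_option autoImplicit false
set_option maxHeartbeats 400000

namespace Pool.Agent.T6.H34.GK

open Matrix

variable {n : ℕ}

/-- The determinant of a form decomposed as a sum of squares in triangular shape. -/
theorem det_dec (m : Fin n → ℝ) (x : Fin n → Fin n → ℂ) (hd : ∀ i, x i i = 1)
    (hz : ∀ i j, j < i → x i j = 0) :
    (∑ i, (m i : ℂ) • vecMulVec (x i) (star (x i))).det = ((∏ i, m i : ℝ) : ℂ) := by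
  set X : Matrix (Fin n) (Fin n) ℂ := fun i j => x j i with hX
  have h1 : ∑ i, (m i : ℂ) • vecMulVec (x i) (star (x i)) =
      X * diagonal (fun i => (m i : ℂ)) * Xᴴ := by
    ext i j
    rw [Matrix.sum_apply, mul_apply]
    refine Finset.sum_congr rfl fun k _ => ?_
    rw [mul_diagonal, Matrix.smul_apply, vecMulVec_apply, conjTranspose_apply, Pi.star_apply,
      smul_eq_mul]
    simp only [hX]
    ring
  have h2 : X.det = 1 := by
    rw [det_of_isLowerTriangular X (by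
      intro i j hij
      exact hz j i hij)]
    simp only [hX, hd, Finset.prod_const_one]
  rw [h1, det_mul, det_mul, det_diagonal, det_conjTranspose, h2]
  simp

theorem q_single (M : Matrix (Fin n) (Fin n) ℂ) (g : Matrix (Fin n) (Fin n) ℂ) (x : Fin n → Fin n → ℂ)
    (m : Fin n → ℝ) (h : gᴴ * M * g = ∑ i, (m i : ℂ) • vecMulVec (x i) (star (x i))) (k : Fin n) :
    q M (g *ᵥ (Pi.single k 1)) = ∑ i, m i * Complex.normSq (x i k) := by
  rw [← q_conj, h, q_dec]
  refine Finset.sum_congr rfl fun i _ => ?_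
  rw [dotProduct_single, mul_one, Pi.star_apply]
  congr 1
  exact Complex.normSq_conj _

theorem isLat_single (k : Fin n) : IsLat (Pi.single k 1 : Fin n → ℂ) := by
  intro i
  rw [Pi.single_apply]
  split_ifs
  · exact IsGau.one
  · exact IsGau.zero

theorem single_ne (k : Fin n) : (Pi.single k 1 : Fin n → ℂ) ≠ 0 := by
  intro h
  have := congrFun h k
  simp at this

theorem Pd.det_pos {H : Matrix (Fin n) (Fin n) ℂ} (hH : Pd H) :
    ∃ d : ℝ, H.det = d ∧ 0 < d := by
  obtain ⟨g, x, m, hg, hm, hch, hd, hz, hs, hdec⟩ := exists_red n H hH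
  have h1 : H.det = ((∏ i, m i : ℝ) : ℂ) := by
    rw [← det_dec m x hd hz, ← hdec, det_mul, det_mul, det_conjTranspose]
    have h2 : star g.det * H.det * g.det = ((Complex.normSq g.det : ℝ) : ℂ) * H.det := by
      have : star g.det * g.det = ((Complex.normSq g.det : ℝ) : ℂ) :=
        Complex.normSq_eq_conj_mul_self.symm
      rw [← this]; ring
    rw [h2, hg.normSq_det]
    simp
  exact ⟨∏ i, m i, h1, Finset.prod_pos fun i _ => hm i⟩

/-- The lower right block. -/
def tl (H : Matrix (Fin (n + 1)) (Fin (n + 1)) ℂ) : Matrix (Fin n) (Fin n) ℂ :=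
  H.submatrix Fin.succ Fin.succ

theorem q_tl (H : Matrix (Fin (n + 1)) (Fin (n + 1)) ℂ) (v : Fin n → ℂ) :
    q (tl H) v = q H (Fin.cons 0 v) := by
  unfold q
  simp [dotProduct, mulVec, Fin.sum_univ_succ, tl]

theorem Pd.tl {H : Matrix (Fin (n + 1)) (Fin (n + 1)) ℂ} (hH : Pd H) : Pd (tl H) := by
  refine ⟨hH.1.submatrix _, fun v hv => ?_⟩
  rw [q_tl]
  apply hH.2
  intro h
  apply hv
  ext i
  have := congrFun h i.succ
  simpa using this

theorem min_tl {H : Matrix (Fin (n + 1)) (Fin (n + 1)) ℂ} {h : ℝ}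
    (hmin : ∀ w, IsLat w → w ≠ 0 → h ≤ q H w) : ∀ w, IsLat w → w ≠ 0 → h ≤ q (tl H) w := by
  intro w hw h0
  rw [q_tl]
  apply hmin
  · intro i
    refine Fin.cases ?_ (fun i => ?_) i
    · exact IsGau.zero
    · exact hw i
  · intro h
    apply h0
    ext i
    have := congrFun h i.succ
    simpa using this

/-- The successive Schur complements. -/
noncomputable def hs : (n : ℕ) → Matrix (Fin n) (Fin n) ℂ → Fin n → ℝ
  | 0, _ => fun i => i.elim0
  | n + 1, H => Fin.cons (H.det.re / (tl H).det.re) (hs n (tl H))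

theorem hs_zero (H : Matrix (Fin (n + 1)) (Fin (n + 1)) ℂ) :
    hs (n + 1) H 0 = H.det.re / (tl H).det.re := rfl

theorem hs_succ (H : Matrix (Fin (n + 1)) (Fin (n + 1)) ℂ) (i : Fin n) :
    hs (n + 1) H i.succ = hs n (tl H) i := rfl

theorem prod_hs : ∀ (n : ℕ) (H : Matrix (Fin n) (Fin n) ℂ), Pd H → ∏ i, hs n H i = H.det.re := by
  intro n
  induction n with
  | zero => intro H _; simp
  | succ n ih =>
    intro H hH
    obtain ⟨d, hd, hd0⟩ := hH.tl.det_pos
    rw [Fin.prod_univ_succ, hs_zero]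
    simp only [hs_succ]
    rw [ih _ hH.tl, hd, Complex.ofReal_re, div_mul_cancel₀ _ hd0.ne']

theorem hs_pos : ∀ (n : ℕ) (H : Matrix (Fin n) (Fin n) ℂ), Pd H → ∀ i, 0 < hs n H i := by
  intro n
  induction n with
  | zero => intro H _ i; exact i.elim0
  | succ n ih =>
    intro H hH i
    refine Fin.cases ?_ (fun i => ?_) i
    · obtain ⟨d, hd, hd0⟩ := hH.tl.det_pos
      obtain ⟨e, he, he0⟩ := hH.det_pos
      rw [hs_zero, hd, he, Complex.ofReal_re, Complex.ofReal_re]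
      positivity
    · exact ih _ hH.tl i

/-- The minimum of a form on the affine hyperplane `x 0 = 1`. -/
theorem Pd.schur_le {H : Matrix (Fin (n + 1)) (Fin (n + 1)) ℂ} (hH : Pd H) {x : Fin (n + 1) → ℂ}
    (hx : x 0 = 1) : H.det.re / (Pool.Agent.T6.H34.GK.tl H).det.re ≤ q H x := by
  obtain ⟨d, hd, hd0⟩ := hH.tl.det_pos
  obtain ⟨e, he, he0⟩ := hH.det_pos
  rw [hd, he, Complex.ofReal_re, Complex.ofReal_re]
  set u : Fin (n + 1) → ℂ := H.adjugate *ᵥ (Pi.single 0 1) with hu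
  have h1 : H *ᵥ u = (e : ℂ) • (Pi.single 0 1 : Fin (n + 1) → ℂ) := by
    rw [hu, mulVec_mulVec, mul_adjugate, he, smul_mulVec, one_mulVec]
  have h2 : u 0 = (d : ℂ) := by
    rw [hu, mulVec_single_one, col_apply, adjugate_fin_succ_eq_det_submatrix]
    simp only [Fin.succAbove_zero]
    have : (H.submatrix Fin.succ Fin.succ).det = (Pool.Agent.T6.H34.GK.tl H).det := rfl
    rw [this, hd]
    simp
  -- expand `q H (x - c u)`
  have h3 : ∀ c : ℝ, q H (x - (c : ℂ) • u) = q H x - 2 * (c * e) + c * c * (e * d) := by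
    intro c
    unfold q
    rw [mulVec_sub, mulVec_smul, h1, star_sub, sub_dotProduct, dotProduct_sub, dotProduct_sub]
    have e1 : star x ⬝ᵥ ((c : ℂ) • (e : ℂ) • (Pi.single 0 1 : Fin (n + 1) → ℂ)) = c * e := by
      rw [dotProduct_smul, dotProduct_smul, dotProduct_single, Pi.star_apply, hx]
      simp
    have e2 : star ((c : ℂ) • u) ⬝ᵥ (H *ᵥ x) = c * e := by
      have h5 : star u ⬝ᵥ (H *ᵥ x) = e := by
        rw [dotProduct_mulVec]
        have h6 : star u ᵥ* H = star (H *ᵥ u) := by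
          rw [star_mulVec H u, hH.1.eq]
        rw [h6, h1, star_smul, smul_dotProduct]
        have h7 : star (Pi.single 0 1 : Fin (n + 1) → ℂ) ⬝ᵥ x = 1 := by
          rw [dotProduct, Finset.sum_eq_single 0]
          · rw [hx]; simp
          · intro i _ hi; rw [Pi.star_apply, Pi.single_eq_of_ne hi]; simp
          · intro h; exact absurd (Finset.mem_univ _) h
        rw [h7]
        have : star (e : ℂ) = e := Complex.conj_ofReal e
        rw [this]; simp
      rw [star_smul, smul_dotProduct, h5]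
      have : star (c : ℂ) = c := Complex.conj_ofReal c
      rw [this, smul_eq_mul]
    have e3 : star ((c : ℂ) • u) ⬝ᵥ ((c : ℂ) • (e : ℂ) • (Pi.single 0 1 : Fin (n + 1) → ℂ)) =
        c * c * (e * d) := by
      rw [dotProduct_smul, dotProduct_smul, dotProduct_single, Pi.star_apply, Pi.smul_apply, h2]
      simp only [smul_eq_mul, star_mul', mul_one]
      have h8 : star (c : ℂ) = c := Complex.conj_ofReal c
      have h9 : star (d : ℂ) = d := Complex.conj_ofReal d
      rw [h8, h9]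
      ring
    rw [e1, e2, e3]
    have r1 : ((c : ℂ) * e).re = c * e := by
      rw [← Complex.ofReal_mul, Complex.ofReal_re]
    have r2 : ((c : ℂ) * c * (e * d)).re = c * c * (e * d) := by
      rw [← Complex.ofReal_mul, ← Complex.ofReal_mul, ← Complex.ofReal_mul, Complex.ofReal_re]
    rw [Complex.sub_re, Complex.sub_re, Complex.sub_re, r1, r2]
    ring
  have h4 := hH.psd.2 (x - ((1 / d : ℝ) : ℂ) • u)
  rw [h3] at h4
  have h5 : 1 / d * (1 / d) * (e * d) = e / d := by field_simp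
  have h6 : 1 / d * e = e / d := by ring
  rw [h5, h6] at h4
  linarith

theorem hs_le : ∀ (n : ℕ) (H : Matrix (Fin n) (Fin n) ℂ), Pd H → ∀ (x : Fin n → Fin n → ℂ),
    (∀ i, x i i = 1) → (∀ i j, j < i → x i j = 0) → ∀ i, hs n H i ≤ q H (x i) := by
  intro n
  induction n with
  | zero => intro H _ x _ _ i; exact i.elim0
  | succ n ih =>
    intro H hH x hd hz i
    refine Fin.cases ?_ (fun i => ?_) i
    · rw [hs_zero]
      exact hH.schur_le (hd 0)
    · rw [hs_succ]
      have h1 := ih (tl H) hH.tl (fun i j => x i.succ j.succ) (fun i => hd i.succ)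
        (fun i j hij => hz _ _ (by simpa using hij)) i
      have h2 : (x i.succ) = Fin.cons 0 (fun j => x i.succ j.succ) := by
        ext j
        refine Fin.cases ?_ (fun j => ?_) j
        · rw [Fin.cons_zero]; exact hz _ _ (by simp)
        · rfl
      rw [h2, ← q_tl]
      exact h1

/-- The determinant of a form in terms of a reduction. -/
theorem det_red {H g : Matrix (Fin n) (Fin n) ℂ} {x : Fin n → Fin n → ℂ} {m : Fin n → ℝ}
    (hg : IsGL g) (hd : ∀ i, x i i = 1) (hz : ∀ i j, j < i → x i j = 0)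
    (hdec : gᴴ * H * g = ∑ i, (m i : ℂ) • vecMulVec (x i) (star (x i))) :
    H.det.re = ∏ i, m i := by
  have h1 : H.det = ((∏ i, m i : ℝ) : ℂ) := by
    rw [← det_dec m x hd hz, ← hdec, det_mul, det_mul, det_conjTranspose]
    have h2 : star g.det * H.det * g.det = ((Complex.normSq g.det : ℝ) : ℂ) * H.det := by
      have : star g.det * g.det = ((Complex.normSq g.det : ℝ) : ℂ) :=
        Complex.normSq_eq_conj_mul_self.symm
      rw [← this]; ring
    rw [h2, hg.normSq_det]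
    simp
  rw [h1, Complex.ofReal_re]

/-- The value of a reduced form at a vector. -/
theorem q_red {M g : Matrix (Fin n) (Fin n) ℂ} {x : Fin n → Fin n → ℂ} {m : Fin n → ℝ}
    (hdec : gᴴ * M * g = ∑ i, (m i : ℂ) • vecMulVec (x i) (star (x i))) (v : Fin n → ℂ) :
    q M (g *ᵥ v) = ∑ i, m i * Complex.normSq (star (x i) ⬝ᵥ v) := by
  rw [← q_conj, hdec, q_dec]

theorem first_ge {H g : Matrix (Fin (n + 1)) (Fin (n + 1)) ℂ} {x : Fin (n + 1) → Fin (n + 1) → ℂ}
    {m : Fin (n + 1) → ℝ} (hg : IsGL g) (hd : ∀ i, x i i = 1) (hz : ∀ i j, j < i → x i j = 0)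
    (hdec : gᴴ * H * g = ∑ i, (m i : ℂ) • vecMulVec (x i) (star (x i))) {h : ℝ}
    (hmin : ∀ w, IsLat w → w ≠ 0 → h ≤ q H w) : h ≤ m 0 := by
  have h2 := hmin _ (hg.mulVec (isLat_single 0)) (hg.mulVec_ne (single_ne 0))
  rw [q_single H g x m hdec 0, Finset.sum_eq_single 0] at h2
  · rw [hd] at h2
    simpa using h2
  · intro j _ hj
    rw [hz j 0 (Fin.pos_of_ne_zero hj)]
    simp
  · intro h; exact absurd (Finset.mem_univ _) h

/-- Hermite's inequality for unary forms. -/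
theorem herm1 {H : Matrix (Fin 1) (Fin 1) ℂ} {h : ℝ}
    (hmin : ∀ w, IsLat w → w ≠ 0 → h ≤ q H w) : h ≤ H.det.re := by
  have h1 := hmin _ (isLat_single 0) (single_ne 0)
  have h2 : q H (Pi.single 0 1) = H.det.re := by
    unfold q
    simp [dotProduct, mulVec, det_fin_one]
  rwa [h2] at h1

/-- Hermite's inequality for binary forms. -/
theorem herm2 {H : Matrix (Fin 2) (Fin 2) ℂ} (hH : Pd H) {h : ℝ} (hh : 0 < h)
    (hmin : ∀ w, IsLat w → w ≠ 0 → h ≤ q H w) : 1 / 2 * h ^ 2 ≤ H.det.re := by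
  obtain ⟨g, x, m, hg, hm, hch, hd, hz, hs, hdec⟩ := exists_red 2 H hH
  have h1 := first_ge hg hd hz hdec hmin
  have h2 := hch 0 1 rfl
  rw [det_red hg hd hz hdec, Fin.prod_univ_two]
  nlinarith [hm 0, hm 1]

/-- A reduced ternary form. -/
structure Red3 (M g : Matrix (Fin 3) (Fin 3) ℂ) (m0 m1 m2 : ℝ) (μ ν l : ℂ) : Prop where
  val : ∀ a b c, q M (g *ᵥ ![a, b, c]) = m0 * Complex.normSq (a + μ * b + ν * c) +
    m1 * Complex.normSq (b + l * c) + m2 * Complex.normSq c
  min0 : ∀ a b, IsGau a → IsGau b → m0 ≤ m0 * Complex.normSq (a + μ * b + ν) +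
    m1 * Complex.normSq (b + l) + m2
  min01 : ∀ a, IsGau a → m0 ≤ m0 * Complex.normSq (a + μ) + m1
  min1 : ∀ b, IsGau b → m1 ≤ m1 * Complex.normSq (b + l) + m2
  mu_re : |μ.re| ≤ 1 / 2
  mu_im : |μ.im| ≤ 1 / 2
  l_re : |l.re| ≤ 1 / 2
  l_im : |l.im| ≤ 1 / 2

theorem red3 {M g : Matrix (Fin 3) (Fin 3) ℂ} {x : Fin 3 → Fin 3 → ℂ} {m : Fin 3 → ℝ}
    (hmin : ∀ i j, i ≤ j → ∀ v, IsLat v → v j = 1 →
        m i ≤ ∑ l, if i ≤ l then m l * Complex.normSq (star (x l) ⬝ᵥ v) else 0)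
    (hd : ∀ i, x i i = 1) (hz : ∀ i j, j < i → x i j = 0)
    (hs : ∀ i j, i < j → |(x i j).re| ≤ 1 / 2 ∧ |(x i j).im| ≤ 1 / 2)
    (hdec : gᴴ * M * g = ∑ i, (m i : ℂ) • vecMulVec (x i) (star (x i))) :
    Red3 M g (m 0) (m 1) (m 2) (star (x 0 1)) (star (x 0 2)) (star (x 1 2)) := by
  have e0 : ∀ a b c : ℂ, star (x 0) ⬝ᵥ ![a, b, c] = a + star (x 0 1) * b + star (x 0 2) * c := by
    intro a b c
    simp [dotProduct, Fin.sum_univ_three, hd 0]
  have e1 : ∀ a b c : ℂ, star (x 1) ⬝ᵥ ![a, b, c] = b + star (x 1 2) * c := by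
    intro a b c
    simp [dotProduct, Fin.sum_univ_three, hd 1, hz 1 0 (by decide)]
  have e2 : ∀ a b c : ℂ, star (x 2) ⬝ᵥ ![a, b, c] = c := by
    intro a b c
    simp [dotProduct, Fin.sum_univ_three, hd 2, hz 2 0 (by decide), hz 2 1 (by decide)]
  have hlat : ∀ {a b c : ℂ}, IsGau a → IsGau b → IsGau c → IsLat ![a, b, c] := by
    intro a b c ha hb hc i
    fin_cases i
    · exact ha
    · exact hb
    · exact hc
  constructor
  · intro a b c
    rw [q_red hdec, Fin.sum_univ_three, e0, e1, e2]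
  · intro a b ha hb
    have h1 := hmin 0 2 (by decide) ![a, b, 1] (hlat ha hb IsGau.one) rfl
    rw [Fin.sum_univ_three, e0, e1, e2] at h1
    simpa using h1
  · intro a ha
    have h1 := hmin 0 1 (by decide) ![a, 1, 0] (hlat ha IsGau.one IsGau.zero) rfl
    rw [Fin.sum_univ_three, e0, e1, e2] at h1
    simpa using h1
  · intro b hb
    have h1 := hmin 1 2 (by decide) ![0, b, 1] (hlat IsGau.zero hb IsGau.one) rfl
    rw [Fin.sum_univ_three, e0, e1, e2] at h1
    simpa using h1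
  · have := (hs 0 1 (by decide)).1
    simpa using this
  · have := (hs 0 1 (by decide)).2
    simpa using this
  · have := (hs 1 2 (by decide)).1
    simpa using this
  · have := (hs 1 2 (by decide)).2
    simpa using this

namespace Red3

variable {M g : Matrix (Fin 3) (Fin 3) ℂ} {m0 m1 m2 : ℝ} {μ ν l : ℂ}

theorem le01 (R : Red3 M g m0 m1 m2 μ ν l) (h0 : 0 < m0) : m0 ≤ 2 * m1 := by
  have h1 := R.min01 0 IsGau.zero
  rw [zero_add] at h1
  have h2 := mul_le_mul_of_nonneg_left (normSq_le_half R.mu_re R.mu_im) h0.le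
  linarith

theorem le12 (R : Red3 M g m0 m1 m2 μ ν l) (h1 : 0 < m1) : m1 ≤ 2 * m2 := by
  have h2 := R.min1 0 IsGau.zero
  rw [zero_add] at h2
  have h3 := mul_le_mul_of_nonneg_left (normSq_le_half R.l_re R.l_im) h1.le
  linarith

theorem prod (R : Red3 M g m0 m1 m2 μ ν l) (h0 : 0 < m0) (h1 : 0 < m1) :
    1 / 4 * m0 ^ 2 ≤ m1 * m2 := by
  have e : μ.re * μ.re + μ.im * μ.im = |μ.re| ^ 2 + |μ.im| ^ 2 := by
    rw [sq_abs, sq_abs]; ring
  refine w3 (u := |μ.re|) (v := |μ.im|) h0 (abs_nonneg _) R.mu_re (abs_nonneg _) R.mu_im ?_ ?_ ?_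
  · have := R.le12 h1
    linarith
  · have h2 := R.min01 0 IsGau.zero
    rw [zero_add, Complex.normSq_apply, e] at h2
    exact h2
  · obtain ⟨a, b, ha, hb, hab⟩ := cov2 h0.le h1.le μ ν l
    have h2 := R.min0 a b ha hb
    unfold sz at hab
    rw [Complex.normSq_apply μ, e] at hab
    linarith

end Red3

/-- Hermite's inequality for ternary forms. -/
theorem herm3 {H : Matrix (Fin 3) (Fin 3) ℂ} (hH : Pd H) {h : ℝ} (hh : 0 < h)
    (hmin : ∀ w, IsLat w → w ≠ 0 → h ≤ q H w) : 1 / 4 * h ^ 3 ≤ H.det.re := by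
  obtain ⟨g, x, m, hg, hm, hch, hd, hz, hs, hdec⟩ := exists_red' 3 H hH
  have h1 := first_ge hg hd hz hdec hmin
  have R := red3 hch hd hz hs hdec
  rw [det_red hg hd hz hdec, Fin.prod_univ_three]
  have h2 := R.prod (hm 0) (hm 1)
  have h3 := mul_le_mul_of_nonneg_left h2 (hm 0).le
  have h4 : h ^ 3 ≤ m 0 ^ 3 := pow_le_pow_left₀ hh.le h1 3
  nlinarith

/-- The successive Schur complements of a ternary form. -/
theorem schur3 {H : Matrix (Fin 3) (Fin 3) ℂ} (hH : Pd H) {h : ℝ} (hh : 0 < h)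
    (hmin : ∀ w, IsLat w → w ≠ 0 → h ≤ q H w) :
    1 ≤ hs 3 H 2 / h ∧ 1 / 2 ≤ hs 3 H 1 / h * (hs 3 H 2 / h) ∧
      1 / 4 ≤ hs 3 H 0 / h * (hs 3 H 1 / h) * (hs 3 H 2 / h) := by
  have h1 := herm1 (min_tl (min_tl hmin))
  have h2 := herm2 hH.tl hh (min_tl hmin)
  have h3 := herm3 hH hh hmin
  rw [← prod_hs 3 H hH, Fin.prod_univ_three] at h3
  rw [← prod_hs 2 (tl H) hH.tl, Fin.prod_univ_two] at h2
  rw [← prod_hs 1 (tl (tl H)) hH.tl.tl, Fin.prod_univ_one] at h1
  have e2 : hs 3 H 2 = hs 1 (tl (tl H)) 0 := rfl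
  have e1 : hs 3 H 1 = hs 2 (tl H) 0 := rfl
  have e1' : hs 3 H 2 = hs 2 (tl H) 1 := rfl
  rw [← e2] at h1
  rw [← e1, ← e1'] at h2
  refine ⟨?_, ?_, ?_⟩
  · rw [le_div_iff₀ hh]; linarith
  · have : hs 3 H 1 / h * (hs 3 H 2 / h) = hs 3 H 1 * hs 3 H 2 / h ^ 2 := by
      field_simp
    rw [this, le_div_iff₀ (by positivity)]
    exact h2
  · have : hs 3 H 0 / h * (hs 3 H 1 / h) * (hs 3 H 2 / h) =
        hs 3 H 0 * hs 3 H 1 * hs 3 H 2 / h ^ 3 := by
      field_simp
    rw [this, le_div_iff₀ (by positivity)]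
    exact h3

end Pool.Agent.T6.H34.GK
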