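import Pool.Agent.T6.H34.GK.LemA

/-!
# The key inequality
-/

set_option autoImplicit false
set_option maxHeartbeats 400000

namespace Pool.Agent.T6.H34.GK

open Matrix

variable {n : ℕ}

/-- `J` is closed under sums and multiplication with Gaussian integers. -/
structure IsSub (J : Set (Fin n → ℂ)) : Prop where
  zero : 0 ∈ J
  add : ∀ x ∈ J, ∀ y ∈ J, x + y ∈ J
  smul : ∀ a : ℂ, IsGau a → ∀ x ∈ J, a • x ∈ J

theorem IsSub.sum {J : Set (Fin n → ℂ)} (hJ : IsSub J) {κ : Type*} (s : Finset κ)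
    (f : κ → Fin n → ℂ) (h : ∀ i ∈ s, f i ∈ J) : ∑ i ∈ s, f i ∈ J := by
  classical
  induction s using Finset.induction_on with
  | empty => simpa using hJ.zero
  | insert i s hi ih =>
    rw [Finset.sum_insert hi]
    exact hJ.add _ (h i (Finset.mem_insert_self _ _)) _
      (ih fun j hj => h j (Finset.mem_insert_of_mem hj))

theorem trace_vec (x : Fin n → ℂ) (K : Matrix (Fin n) (Fin n) ℂ) :
    (vecMulVec x (star x) * K).trace = star x ⬝ᵥ (K *ᵥ x) := by
  rw [vecMulVec_mul, trace_vecMulVec, dotProduct_comm, dotProduct_mulVec]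

theorem trace_dec {M g g' : Matrix (Fin n) (Fin n) ℂ} (h1 : g * g' = 1) {m : Fin n → ℝ}
    {x : Fin n → Fin n → ℂ}
    (hdec : gᴴ * M * g = ∑ i, (m i : ℂ) • vecMulVec (x i) (star (x i)))
    (H : Matrix (Fin n) (Fin n) ℂ) :
    (M * H).trace.re = ∑ i, m i * q (g' * H * g'ᴴ) (x i) := by
  have h2 : g'ᴴ * gᴴ = 1 := by rw [← conjTranspose_mul, h1, conjTranspose_one]
  have h3 : M = g'ᴴ * (gᴴ * M * g) * g' := by
    calc M = (g'ᴴ * gᴴ) * M * (g * g') := by rw [h1, h2, Matrix.one_mul, Matrix.mul_one]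
      _ = _ := by simp only [Matrix.mul_assoc]
  have h4 : (M * H).trace = ((gᴴ * M * g) * (g' * H * g'ᴴ)).trace := by
    conv_lhs => rw [h3]
    rw [Matrix.mul_assoc, Matrix.mul_assoc, trace_mul_comm]
    simp only [Matrix.mul_assoc]
  rw [h4, hdec, Finset.sum_mul, trace_sum, Complex.re_sum]
  refine Finset.sum_congr rfl fun i _ => ?_
  rw [Matrix.smul_mul, trace_smul, trace_vec, smul_eq_mul, Complex.re_ofReal_mul]
  rfl

/-- The vectors with image in a submodule. -/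
theorem IsSub.comap {J : Set (Fin n → ℂ)} (hJ : IsSub J) (g : Matrix (Fin n) (Fin n) ℂ) :
    IsSub {v | g *ᵥ v ∈ J} where
  zero := by
    show g *ᵥ 0 ∈ J
    rw [mulVec_zero]
    exact hJ.zero
  add x hx y hy := by
    show g *ᵥ (x + y) ∈ J
    rw [mulVec_add]
    exact hJ.add _ hx _ hy
  smul a ha x hx := by
    show g *ᵥ (a • x) ∈ J
    rw [mulVec_smul]
    exact hJ.smul a ha _ hx

theorem IsSub.sub {J : Set (Fin n → ℂ)} (hJ : IsSub J) {x y : Fin n → ℂ} (hx : x ∈ J) (hy : y ∈ J) :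
    x - y ∈ J := by
  have h1 := hJ.add _ hx _ (hJ.smul (-1) IsGau.one.neg _ hy)
  rwa [neg_one_smul, ← sub_eq_add_neg] at h1

theorem vec_add (a b c a' b' c' : ℂ) : ![a, b, c] + ![a', b', c'] = ![a + a', b + b', c + c'] := by
  ext i
  fin_cases i <;> simp

theorem vec_sub (a b c a' b' c' : ℂ) : ![a, b, c] - ![a', b', c'] = ![a - a', b - b', c - c'] := by
  ext i
  fin_cases i <;> simp

theorem vec_smul (t a b c : ℂ) : t • ![a, b, c] = ![t * a, t * b, t * c] := by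
  ext i
  fin_cases i <;> simp

theorem vec_lat {a b c : ℂ} (ha : IsGau a) (hb : IsGau b) (hc : IsGau c) :
    IsLat ![a, b, c] := by
  intro i
  fin_cases i
  · exact ha
  · exact hb
  · exact hc

/-- A unit which moves a reduced number with large absolute value to a number which is not much
larger. -/
theorem exists_sign {l : ℂ} (h1 : |l.re| ≤ 1 / 2) (h2 : |l.im| ≤ 1 / 2) {m1 m2 : ℝ} (hm1 : 0 < m1)
    (h3 : m1 ≤ m1 * Complex.normSq l + m2) : ∃ σ : ℂ, (σ = 1 ∨ σ = -1) ∧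
      m1 * (Complex.normSq l + Complex.normSq (-σ + l)) ≤ 2 * m2 ∧
      m1 * Complex.normSq (-σ + l) ≤ 3 * m2 - m1 := by
  have key : ∀ r i : ℝ, 0 ≤ r → r ≤ 1 / 2 → -(1 / 2) ≤ i → i ≤ 1 / 2 →
      m1 ≤ m1 * (r ^ 2 + i ^ 2) + m2 →
      m1 * (r ^ 2 + i ^ 2 + ((1 - r) ^ 2 + i ^ 2)) ≤ 2 * m2 ∧
      m1 * ((1 - r) ^ 2 + i ^ 2) ≤ 3 * m2 - m1 := by
    intro r i hr0 hr hi0 hi h
    have e1 : 0 ≤ 1 - r - (r ^ 2 + i ^ 2 + (1 / 4 - i ^ 2)) - (1 / 4 - r ^ 2) + (1 / 2 - r) := by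
      linarith
    have e2 : 0 ≤ (1 / 2 - r) * r := mul_nonneg (by linarith) hr0
    have e3 : 0 ≤ (1 / 2 - i) * (1 / 2 + i) := mul_nonneg (by linarith) (by linarith)
    -- `α := 1 / 2 - r`, `α / 2 ≤ α - α ^ 2 + (1 / 4 - i ^ 2) = 1 / 2 - (r ^ 2 + i ^ 2)`
    have e4 : (1 / 2 - r) / 2 ≤ 1 / 2 - (r ^ 2 + i ^ 2) := by nlinarith
    have e5 := mul_le_mul_of_nonneg_left e4 hm1.le
    have e6 : r ^ 2 + i ^ 2 + ((1 - r) ^ 2 + i ^ 2) ≤ 1 + (1 / 2 - r) := by nlinarith
    have e7 : (1 - r) ^ 2 + i ^ 2 ≤ 1 / 2 + 3 / 2 * (1 / 2 - r) := by nlinarith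
    have e8 := mul_le_mul_of_nonneg_left e6 hm1.le
    have e9 := mul_le_mul_of_nonneg_left e7 hm1.le
    constructor <;> linarith
  obtain ⟨h4, h5⟩ := abs_le.1 h1
  obtain ⟨h6, h7⟩ := abs_le.1 h2
  rcases le_total 0 l.re with h | h
  · refine ⟨1, Or.inl rfl, ?_⟩
    have e1 : Complex.normSq l = l.re ^ 2 + l.im ^ 2 := by rw [Complex.normSq_apply]; ring
    have e2 : Complex.normSq (-1 + l) = (1 - l.re) ^ 2 + l.im ^ 2 := by
      rw [Complex.normSq_apply]; simp; ring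
    rw [e1, e2]
    rw [e1] at h3
    exact key _ _ h h5 (by linarith) h7 h3
  · refine ⟨-1, Or.inr rfl, ?_⟩
    have e1 : Complex.normSq l = (-l.re) ^ 2 + l.im ^ 2 := by rw [Complex.normSq_apply]; ring
    have e2 : Complex.normSq (- -1 + l) = (1 - -l.re) ^ 2 + l.im ^ 2 := by
      rw [Complex.normSq_apply]; simp; ring
    rw [e1, e2]
    rw [e1] at h3
    exact key _ _ (by linarith) (by linarith) (by linarith) h7 h3

theorem square_id {m1 m2 : ℝ} {z : ℂ} (ht : m1 * Complex.normSq z + m2 ≠ 0) (c : ℂ) :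
    m1 * Complex.normSq (1 + z * c) + m2 * Complex.normSq c =
      (m1 * Complex.normSq z + m2) * Complex.normSq
        (c + ((m1 / (m1 * Complex.normSq z + m2) : ℝ) : ℂ) * star z) +
      m1 * m2 / (m1 * Complex.normSq z + m2) := by
  have hz : Complex.normSq z = z.re ^ 2 + z.im ^ 2 := by rw [Complex.normSq_apply]; ring
  set t := m1 * Complex.normSq z + m2 with ht'
  have e1 : star z = (starRingEnd ℂ) z := rfl
  have e2 : Complex.normSq (c + ((m1 / t : ℝ) : ℂ) * star z) =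
      (c.re + m1 / t * z.re) ^ 2 + (c.im - m1 / t * z.im) ^ 2 := by
    rw [e1, Complex.normSq_apply]
    simp only [Complex.add_re, Complex.add_im, Complex.re_ofReal_mul, Complex.im_ofReal_mul,
      Complex.conj_re, Complex.conj_im]
    ring
  have e3 : Complex.normSq (1 + z * c) = (1 + (z.re * c.re - z.im * c.im)) ^ 2 +
      (z.re * c.im + z.im * c.re) ^ 2 := by
    rw [Complex.normSq_apply]
    simp only [Complex.add_re, Complex.add_im, Complex.mul_re, Complex.mul_im, Complex.one_re,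
      Complex.one_im]
    ring
  have e4 : Complex.normSq c = c.re ^ 2 + c.im ^ 2 := by rw [Complex.normSq_apply]; ring
  rw [e2, e3, e4]
  field_simp
  rw [ht', hz]
  ring

/-- **Upper bounds for the minimum outside of a submodule.** -/
theorem Red3.bound {M g : Matrix (Fin 3) (Fin 3) ℂ} {m0 m1 m2 : ℝ} {μ ν l : ℂ}
    (R : Red3 M g m0 m1 m2 μ ν l) (h0 : 0 < m0) (h1 : 0 < m1) (h2 : 0 < m2) (hg : IsGL g)
    {J : Set (Fin 3 → ℂ)} (hJ : IsSub J) (hne : ∃ v, IsLat v ∧ v ∉ J)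
    (hMJ : ∀ v, IsLat v → v ∉ J → 1 ≤ q M v) :
    1 ≤ m0 ∨ (1 ≤ m2 + m1 ∧ 1 ≤ m2 + (m0 + m1) / 2) ∨ (1 ≤ m1 + m0 / 2 ∧ 1 ≤ 5 * m2 - m1) := by
  have k12 := R.le12 h1
  have hJ' := hJ.comap g
  set J' : Set (Fin 3 → ℂ) := {v | g *ᵥ v ∈ J} with hJ'def
  have hval : ∀ a b c, IsGau a → IsGau b → IsGau c → ![a, b, c] ∉ J' →
      1 ≤ m0 * Complex.normSq (a + μ * b + ν * c) + m1 * Complex.normSq (b + l * c) +
        m2 * Complex.normSq c := by
    intro a b c ha hb hc hn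
    have h3 := hMJ _ (hg.mulVec (vec_lat ha hb hc)) hn
    rwa [R.val] at h3
  by_cases c0 : ![(1 : ℂ), 0, 0] ∈ J'
  swap
  · left
    have h3 := hval 1 0 0 IsGau.one IsGau.zero IsGau.zero c0
    simpa using h3
  right
  have c0' : ∀ a, IsGau a → ![a, (0 : ℂ), 0] ∈ J' := by
    intro a ha
    have h3 := hJ'.smul a ha _ c0
    rwa [vec_smul, mul_one, mul_zero] at h3
  by_cases c1 : ![(0 : ℂ), 1, 0] ∈ J'
  · left
    have c1' : ∀ a b, IsGau a → IsGau b → ![a, b, (0 : ℂ)] ∈ J' := by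
      intro a b ha hb
      have h3 := hJ'.add _ (c0' a ha) _ (hJ'.smul b hb _ c1)
      rw [vec_smul, vec_add] at h3
      simpa using h3
    have c2 : ∀ a b, IsGau a → IsGau b → ![a, b, (1 : ℂ)] ∉ J' := by
      intro a b ha hb h3
      obtain ⟨v, hv, hvJ⟩ := hne
      apply hvJ
      obtain ⟨g', k1, k2, k3⟩ := hg.inv
      have hg' : IsGL g' := ⟨k1, g, hg.ent, k3, k2⟩
      have h5 := hg'.mulVec hv
      have h6 : g' *ᵥ v ∈ J' := by
        have h7 := hJ'.add _ (c1' ((g' *ᵥ v) 0 - (g' *ᵥ v) 2 * a) ((g' *ᵥ v) 1 - (g' *ᵥ v) 2 * b)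
          ((h5 0).sub ((h5 2).mul ha)) ((h5 1).sub ((h5 2).mul hb))) _
          (hJ'.smul _ (h5 2) _ h3)
        rw [vec_smul, vec_add] at h7
        have h8 : g' *ᵥ v = ![(g' *ᵥ v) 0, (g' *ᵥ v) 1, (g' *ᵥ v) 2] := by
          ext i
          fin_cases i <;> rfl
        rw [h8]
        simpa using h7
      have h7 : g *ᵥ (g' *ᵥ v) ∈ J := h6
      rwa [mulVec_mulVec, k2, one_mulVec] at h7
    obtain ⟨a, b, ha, hb, hab1, hab2⟩ := cov2' h0.le h1.le (fun c hc => R.min01 c hc) ν l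
    have h3 := hval a b 1 ha hb IsGau.one (c2 a b ha hb)
    rw [mul_one, mul_one, Complex.normSq_one, mul_one] at h3
    constructor <;> linarith
  · right
    constructor
    · have h3 := hval 0 1 0 IsGau.zero IsGau.one IsGau.zero c1
      simp only [zero_add, mul_one, mul_zero, add_zero, Complex.normSq_one,
        Complex.normSq_zero] at h3
      have h4 := mul_le_mul_of_nonneg_left (normSq_le_half R.mu_re R.mu_im) h0.le
      linarith
    · have hl0 := R.min1 0 IsGau.zero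
      rw [zero_add] at hl0
      obtain ⟨σ, hσ, hσ1, hσ2⟩ := exists_sign R.l_re R.l_im h1 hl0
      have hσg : IsGau σ := isGau_unit (by rcases hσ with h | h <;> simp [h])
      -- a vector of `J'` with last coordinate `1`
      have caseA : ∀ b, IsGau b → ![(0 : ℂ), b, 1] ∈ J' →
          m1 * Complex.normSq (b + l) ≤ 3 * m2 - m1 → 1 ≤ 5 * m2 - m1 := by
        intro b hb hbJ hb1
        have hb2 := R.min1 b hb
        have ht0 : m1 * Complex.normSq (b + l) + m2 ≠ 0 := by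
          have := mul_nonneg h1.le (Complex.normSq_nonneg (b + l))
          linarith
        set t := m1 * Complex.normSq (b + l) + m2 with ht
        have ht1 : 0 < t := lt_of_lt_of_le h1 hb2
        obtain ⟨a, c, ha, hc, hac, -⟩ := cov2' (μ := μ * b + ν) h0.le ht1.le (fun c hc => by
          have h3 := R.min0 c b hc hb
          rw [add_assoc, ← ht, add_assoc] at h3
          exact h3) μ (((m1 / t : ℝ) : ℂ) * star (b + l))
        have h3 : ![a, 1 + b * c, c] ∉ J' := by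
          intro h4
          apply c1
          have h5 := hJ'.sub (hJ'.sub h4 (c0' a ha)) (hJ'.smul c hc _ hbJ)
          rw [vec_smul, vec_sub, vec_sub] at h5
          have e : ![a - a - c * 0, 1 + b * c - 0 - c * b, c - 0 - c * 1] =
              ![(0 : ℂ), 1, 0] := by
            ext i
            fin_cases i
            · simp
            · simp; ring
            · simp
          rwa [e] at h5
        have h4 := hval a (1 + b * c) c ha (IsGau.one.add (hb.mul hc)) hc h3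
        have e1 : a + μ * (1 + b * c) + ν * c = a + (μ * b + ν) * c + μ := by ring
        have e2 : 1 + b * c + l * c = 1 + (b + l) * c := by ring
        rw [e1, e2, add_assoc, square_id ht0 c, ← ht] at h4
        have h5 : m1 * m2 / t ≤ m2 := by
          rw [div_le_iff₀ ht1, mul_comm m1]
          exact mul_le_mul_of_nonneg_left hb2 h2.le
        linarith
      by_cases d0 : ![(0 : ℂ), 0, 1] ∈ J'
      · refine caseA 0 IsGau.zero d0 ?_
        rw [zero_add]
        have h4 := mul_le_mul_of_nonneg_left (normSq_le_half R.l_re R.l_im) h1.le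
        linarith
      · by_cases d1 : ![(0 : ℂ), -σ, 1] ∈ J'
        · exact caseA (-σ) hσg.neg d1 hσ2
        · obtain ⟨a, b, ha, hb, hab⟩ := pair_cpx ν (σ * μ)
          rw [sz_unit (by rcases hσ with h | h <;> simp [h])] at hab
          have h3 : ![-a, 0, (1 : ℂ)] ∉ J' := by
            intro h4
            apply d0
            have h5 := hJ'.add _ h4 _ (c0' a ha)
            rw [vec_add] at h5
            simpa using h5
          have h4 : ![-b, -σ, (1 : ℂ)] ∉ J' := by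
            intro h4
            apply d1
            have h5 := hJ'.add _ h4 _ (c0' b hb)
            rw [vec_add] at h5
            simpa using h5
          have h5 := hval (-a) 0 1 ha.neg IsGau.zero IsGau.one h3
          have h6 := hval (-b) (-σ) 1 hb.neg hσg.neg IsGau.one h4
          have e1 : -a + μ * 0 + ν * 1 = ν - a := by ring
          have e2 : -b + μ * -σ + ν * 1 = ν - σ * μ - b := by ring
          rw [e1, mul_one, zero_add, Complex.normSq_one, mul_one] at h5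
          rw [e2, mul_one, Complex.normSq_one, mul_one] at h6
          have h7 := mul_le_mul_of_nonneg_left (hab.trans (sz_le R.mu_re R.mu_im).2) h0.le
          have h8 := R.min01 0 IsGau.zero
          rw [zero_add] at h8
          linarith

theorem lemA_aux {M H : Matrix (Fin 3) (Fin 3) ℂ} (hM : Pd M) (hH : Pd H) {h : ℝ}
    (hh : 0 < h) (hmin : ∀ w, IsLat w → w ≠ 0 → h ≤ q H w) :
    ∃ (g : Matrix (Fin 3) (Fin 3) ℂ) (m0 m1 m2 : ℝ) (μ ν l : ℂ), IsGL g ∧ 0 < m0 ∧ 0 < m1 ∧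
      0 < m2 ∧ Red3 M g m0 m1 m2 μ ν l ∧ ∃ s : ℝ, h * s ≤ (M * H).trace.re ∧
      7 / 6 * m0 ≤ s ∧ (m2 + m1 ≤ s ∨ m2 + (m0 + m1) / 2 ≤ s) ∧
      (m1 + m0 / 2 ≤ s ∨ 5 * m2 - m1 ≤ s) := by
  obtain ⟨g, x, m, hg, hm, hch, hd, hz, hsz, hdec⟩ := exists_red' 3 M hM
  have R := red3 hch hd hz hsz hdec
  obtain ⟨g', h1, h2, h3⟩ := hg.inv
  have hg' : IsGL g' := ⟨h1, g, hg.ent, h3, h2⟩
  have ht := trace_dec h2 hdec H
  set K := g' * H * g'ᴴ with hK
  have hKe : K = g'ᴴᴴ * H * g'ᴴ := by rw [conjTranspose_conjTranspose]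
  have hKpd : Pd K := by rw [hKe]; exact hH.conj hg'.conjTranspose
  have hKmin : ∀ w, IsLat w → w ≠ 0 → h ≤ q K w := by
    intro w hw hw0
    rw [hKe, q_conj]
    exact hmin _ (hg'.conjTranspose.mulVec hw) (hg'.conjTranspose.mulVec_ne hw0)
  have h4 : ∑ i, m i * hs 3 K i ≤ ∑ i, m i * q K (x i) :=
    Finset.sum_le_sum fun i _ => mul_le_mul_of_nonneg_left (hs_le 3 K hKpd x hd hz i) (hm i).le
  have hp : ∀ i, 0 < hs 3 K i / h := fun i => div_pos (hs_pos 3 K hKpd i) hh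
  obtain ⟨s2, s1, s0⟩ := schur3 hKpd hh hKmin
  refine ⟨g, m 0, m 1, m 2, _, _, _, hg, hm 0, hm 1, hm 2, R,
    m 0 * (hs 3 K 0 / h) + m 1 * (hs 3 K 1 / h) + m 2 * (hs 3 K 2 / h), ?_,
    fin3 (hm 0) (hm 1) (hm 2) (hp 0) (hp 1) (hp 2) s2 s1 s0 (R.le01 (hm 0)) (R.le12 (hm 1))
      (R.prod (hm 0) (hm 1))⟩
  rw [ht]
  refine le_trans (le_of_eq ?_) h4
  rw [Fin.sum_univ_three]
  field_simp

theorem lemA_pd {M H : Matrix (Fin 3) (Fin 3) ℂ} (hM : Pd M) (hH : Pd H) {h : ℝ}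
    (hh : 0 < h) (hmin : ∀ w, IsLat w → w ≠ 0 → h ≤ q H w) {J : Set (Fin 3 → ℂ)} (hJ : IsSub J)
    (hne : ∃ v, IsLat v ∧ v ∉ J) (hMJ : ∀ v, IsLat v → v ∉ J → 1 ≤ q M v) :
    h ≤ (M * H).trace.re := by
  obtain ⟨g, m0, m1, m2, μ, ν, l, hg, h0, h1, h2, R, s, hs, h3, h4, h5⟩ := lemA_aux hM hH hh hmin
  refine le_trans ?_ hs
  have h6 : 1 ≤ s := by
    rcases R.bound h0 h1 h2 hg hJ hne hMJ with h | h | h
    · linarith
    · rcases h4 with h4 | h4 <;> linarith
    · rcases h5 with h5 | h5 <;> linarith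
  nlinarith

/-- A stronger inequality if the form is at least `1` on all lattice vectors. -/
theorem lemA_pd' {M H : Matrix (Fin 3) (Fin 3) ℂ} (hM : Pd M)
    (hH : Pd H) {h : ℝ} (hh : 0 < h) (hmin : ∀ w, IsLat w → w ≠ 0 → h ≤ q H w)
    (hM1 : ∀ v, IsLat v → v ≠ 0 → 1 ≤ q M v) : 7 / 6 * h ≤ (M * H).trace.re := by
  obtain ⟨g, m0, m1, m2, μ, ν, l, hg, h0, h1, h2, R, s, hs, h3, h4, h5⟩ := lemA_aux hM hH hh hmin
  refine le_trans ?_ hs
  have h6 := hM1 _ (hg.mulVec (vec_lat IsGau.one IsGau.zero IsGau.zero)) (hg.mulVec_ne (by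
    intro h
    have := congrFun h 0
    simp at this))
  rw [R.val] at h6
  simp only [mul_zero, add_zero, Complex.normSq_one, Complex.normSq_zero, mul_one] at h6
  nlinarith

theorem Psd.add_one {M : Matrix (Fin n) (Fin n) ℂ} (hM : Psd M) {ε : ℝ} (hε : 0 < ε) :
    Pd (M + (ε : ℂ) • (1 : Matrix (Fin n) (Fin n) ℂ)) ∧
      ∀ v, q (M + (ε : ℂ) • (1 : Matrix (Fin n) (Fin n) ℂ)) v = q M v + ε * ∑ i, Complex.normSq (v i) := by
  have h1 : ∀ v, q (1 : Matrix (Fin n) (Fin n) ℂ) v = ∑ i, Complex.normSq (v i) := by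
    intro v
    unfold q
    rw [one_mulVec, dotProduct, Complex.re_sum]
    refine Finset.sum_congr rfl fun i _ => ?_
    rw [Pi.star_apply]
    have : star (v i) * v i = ((Complex.normSq (v i) : ℝ) : ℂ) :=
      Complex.normSq_eq_conj_mul_self.symm
    rw [this, Complex.ofReal_re]
  refine ⟨⟨?_, fun v hv => ?_⟩, fun v => by rw [q_add, q_smul, h1]⟩
  · refine hM.1.add ?_
    unfold IsHermitian
    rw [conjTranspose_smul, conjTranspose_one]
    congr 1
    exact Complex.conj_ofReal ε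
  · rw [q_add, q_smul, h1]
    have h2 := hM.2 v
    have h3 : 0 < ∑ i, Complex.normSq (v i) := by
      obtain ⟨i, hi⟩ : ∃ i, v i ≠ 0 := by
        by_contra hcon
        push Not at hcon
        exact hv (funext hcon)
      exact Finset.sum_pos' (fun i _ => Complex.normSq_nonneg _)
        ⟨i, Finset.mem_univ _, Complex.normSq_pos.2 hi⟩
    positivity

theorem trace_lim {M H : Matrix (Fin n) (Fin n) ℂ} {c : ℝ}
    (h : ∀ ε : ℝ, 0 < ε → c ≤ ((M + (ε : ℂ) • (1 : Matrix (Fin n) (Fin n) ℂ)) * H).trace.re) :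
    c ≤ (M * H).trace.re := by
  have h1 : ∀ ε : ℝ, 0 < ε → c ≤ (M * H).trace.re + ε * |H.trace.re| := by
    intro ε hε
    refine (h ε hε).trans ?_
    rw [Matrix.add_mul, trace_add, Complex.add_re, Matrix.smul_mul, Matrix.one_mul, trace_smul,
      smul_eq_mul, Complex.re_ofReal_mul]
    have := mul_le_mul_of_nonneg_left (le_abs_self H.trace.re) hε.le
    linarith
  refine le_of_forall_pos_le_add fun δ hδ => ?_
  have h2 := h1 (δ / (|H.trace.re| + 1)) (by positivity)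
  refine h2.trans ?_
  have h3 : δ / (|H.trace.re| + 1) * |H.trace.re| ≤ δ := by
    rw [div_mul_eq_mul_div, div_le_iff₀ (by positivity)]
    nlinarith [abs_nonneg H.trace.re]
  linarith

/-- **The key inequality.** -/
theorem lemA {M H : Matrix (Fin 3) (Fin 3) ℂ} (hM : Psd M) (hH : Pd H) {h : ℝ}
    (hh : 0 < h) (hmin : ∀ w, IsLat w → w ≠ 0 → h ≤ q H w) {J : Set (Fin 3 → ℂ)} (hJ : IsSub J)
    (hne : ∃ v, IsLat v ∧ v ∉ J) (hMJ : ∀ v, IsLat v → v ∉ J → 1 ≤ q M v) :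
    h ≤ (M * H).trace.re := by
  refine trace_lim fun ε hε => ?_
  obtain ⟨h1, h2⟩ := hM.add_one hε
  refine lemA_pd h1 hH hh hmin hJ hne fun v hv hvJ => ?_
  rw [h2]
  have h3 := hMJ v hv hvJ
  have h4 : 0 ≤ ∑ i, Complex.normSq (v i) := Finset.sum_nonneg fun i _ => Complex.normSq_nonneg _
  nlinarith

theorem lemA' {M H : Matrix (Fin 3) (Fin 3) ℂ} (hM : Psd M)
    (hH : Pd H) {h : ℝ} (hh : 0 < h) (hmin : ∀ w, IsLat w → w ≠ 0 → h ≤ q H w)
    (hM1 : ∀ v, IsLat v → v ≠ 0 → 1 ≤ q M v) : 7 / 6 * h ≤ (M * H).trace.re := by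
  refine trace_lim fun ε hε => ?_
  obtain ⟨h1, h2⟩ := hM.add_one hε
  refine lemA_pd' h1 hH hh hmin fun v hv hv0 => ?_
  rw [h2]
  have h3 := hM1 v hv hv0
  have h4 : 0 ≤ ∑ i, Complex.normSq (v i) := Finset.sum_nonneg fun i _ => Complex.normSq_nonneg _
  nlinarith

end Pool.Agent.T6.H34.GK
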