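import Pool.Agent.T6.H34.GK.Up
import Pool.Agent.T6.H34.GK.Gen

/-!
# Sections from sums of squares
-/

set_option autoImplicit false
set_option maxHeartbeats 400000

namespace Pool.Agent.T6.H34.GK

open Pool.Agent.R895 (BlBundle act IsClass N1s N1 form coef integral semiample effective span
  nefCone effCone Normalizes IsPullback)

open Matrix hiding IsHermitian
open Pool.Agent.W594.SYZ2 (IsHermitian)
open Pool.Agent.W594.SYZ2.TQ (h_add_right h_smul_right h_zero_left h_zero_right)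

variable {ι : Type*} [Fintype ι] {r : ℕ}

/-- The hermitian form of the linear function `l`. -/
noncomputable def lsq (u w l : ι → ℂ) : ℂ := (l ⬝ᵥ u) * (starRingEnd ℂ) (l ⬝ᵥ w)

theorem dec_of_multiset {h : (ι → ℂ) → (ι → ℂ) → ℂ} {b : ℕ} {J : Set (ι → ℂ)} (N : ℕ)
    (S T : Multiset (ι → ℂ)) (hN : 1 ≤ N) (hS : ∀ l ∈ S, Lat l) (hT : ∀ l ∈ T, Lat l ∧ l ∉ J)
    (hc : T.card = N * b)
    (hsum : ∀ u w, N * h u w = (T.map (lsq u w)).sum + (S.map (lsq u w)).sum) : Dec h b J := by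
  classical
  set LT := T.toList with hLT
  set LS := S.toList with hLS
  have hTe : (LT : Multiset (ι → ℂ)) = T := T.coe_toList
  have hSe : (LS : Multiset (ι → ℂ)) = S := S.coe_toList
  have hTm : ∀ x, x ∈ LT → x ∈ T := fun x hx => Multiset.mem_toList.1 hx
  have hSm : ∀ x, x ∈ LS → x ∈ S := fun x hx => Multiset.mem_toList.1 hx
  have hlen : LT.length ≤ (LT ++ LS).length := by rw [List.length_append]; omega
  refine ⟨N, (LT ++ LS).length, fun i => (LT ++ LS)[i.1], hN, fun i => ?_, fun u w => ?_,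
    Finset.univ.map (Fin.castLEEmb hlen), ?_, ?_⟩
  · have h1 : (LT ++ LS)[i.1] ∈ LT ++ LS := List.getElem_mem i.2
    rcases List.mem_append.1 h1 with h2 | h2
    · exact (hT _ (hTm _ h2)).1
    · exact hS _ (hSm _ h2)
  · have h1 := Fin.sum_univ_fun_getElem (LT ++ LS) (lsq u w)
    have h2 : (T.map (lsq u w)).sum = (LT.map (lsq u w)).sum := by
      rw [← hTe, Multiset.map_coe, Multiset.sum_coe]
    have h3 : (S.map (lsq u w)).sum = (LS.map (lsq u w)).sum := by
      rw [← hSe, Multiset.map_coe, Multiset.sum_coe]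
    rw [hsum, h2, h3, ← List.sum_append, ← List.map_append, ← h1]
    rfl
  · rw [Finset.card_map, Finset.card_univ, Fintype.card_fin, ← hc, ← hTe]
    rfl
  · intro i hi
    obtain ⟨k, -, rfl⟩ := Finset.mem_map.1 hi
    have h1 : (LT ++ LS)[(Fin.castLEEmb hlen k).1] = LT[k.1] := by
      exact List.getElem_append_left k.2
    show (LT ++ LS)[(Fin.castLEEmb hlen k).1] ∉ J
    rw [h1]
    exact (hT _ (hTm _ (List.getElem_mem k.2))).2

theorem exists_sub_card {α : Type*} {T : Multiset α} {n : ℕ} (h : n ≤ T.card) :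
    ∃ T' ≤ T, T'.card = n := by
  have h1 : ((T.toList.take n : List α) : Multiset α) ≤ T := by
    conv_rhs => rw [← T.coe_toList]
    exact (List.take_sublist n T.toList).subperm
  refine ⟨_, h1, ?_⟩
  rw [Multiset.coe_card, List.length_take, Multiset.length_toList]
  omega

theorem sum_lsq (S : Multiset (ι → ℂ)) (u w : ι → ℂ) :
    (S.map (lsq u w)).sum = ∑ i, ∑ k, (S.map sq).sum i k * (u i * (starRingEnd ℂ) (w k)) := by
  induction S using Multiset.induction_on with
  | empty => simp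
  | cons l S ih =>
    rw [Multiset.map_cons, Multiset.sum_cons, Multiset.map_cons, Multiset.sum_cons, ih]
    simp only [Pi.add_apply, add_mul, Finset.sum_add_distrib]
    congr 1
    unfold lsq sq dotProduct
    rw [map_sum, Finset.sum_mul_sum]
    refine Finset.sum_congr rfl fun i _ => Finset.sum_congr rfl fun k _ => ?_
    rw [map_mul]
    have : star (l k) = (starRingEnd ℂ) (l k) := rfl
    rw [this]
    ring

/-- Decompositions from the cone `RC`. -/
theorem dec_of_RC {h : (ι → ℂ) → (ι → ℂ) → ℂ} {b : ℕ} {J : Set (ι → ℂ)} {A : ι → ι → ℂ}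
    (hA : (A, (b : ℝ)) ∈ RC J)
    (hh : ∀ u w, h u w = ∑ i, ∑ k, A i k * (u i * (starRingEnd ℂ) (w k))) : Dec h b J := by
  obtain ⟨N, S, hN, hS, hsum, T, hTS, hT, hc⟩ := hA
  have hc' : N * b ≤ T.card := by
    have h1 : (N : ℝ) * b ≤ T.card := hc
    exact_mod_cast h1
  obtain ⟨T', hT', hc2⟩ := exists_sub_card hc'
  obtain ⟨U, rfl⟩ := Multiset.le_iff_exists_add.1 (hT'.trans hTS)
  refine dec_of_multiset N U T' hN (fun l hl => hS l (Multiset.mem_add.2 (Or.inr hl)))
    (fun l hl => ⟨hS l (Multiset.mem_add.2 (Or.inl hl)), hT l (Multiset.mem_of_le hT' hl)⟩) hc2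
    fun u w => ?_
  rw [← Multiset.sum_add, ← Multiset.map_add, sum_lsq, ← hsum, hh]
  simp only [Pi.smul_apply, Finset.mul_sum]
  refine Finset.sum_congr rfl fun i _ => Finset.sum_congr rfl fun k _ => ?_
  rw [Complex.real_smul]
  push_cast
  ring

section lift

open scoped Classical in
/-- The extension by zero of a vector. -/
noncomputable def ext (ρ : Fin r → ι) (l : Fin r → ℂ) (i : ι) : ℂ := ∑ a, if ρ a = i then l a else 0

open scoped Classical in
/-- The extension by zero of a matrix. -/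
noncomputable def extm (ρ : Fin r → ι) (A : Fin r → Fin r → ℂ) (i k : ι) : ℂ :=
  ∑ a, ∑ b, if ρ a = i then (if ρ b = k then A a b else 0) else 0

variable {ρ : Fin r → ι}

theorem ext_dot (l : Fin r → ℂ) (v : ι → ℂ) : ext ρ l ⬝ᵥ v = l ⬝ᵥ (v ∘ ρ) := by
  classical
  unfold ext dotProduct
  simp only [Finset.sum_mul, ite_mul, zero_mul]
  rw [Finset.sum_comm]
  refine Finset.sum_congr rfl fun a _ => ?_
  rw [Finset.sum_ite_eq]
  simp

theorem ext_apply (hρ : Function.Injective ρ) (l : Fin r → ℂ) (a : Fin r) : ext ρ l (ρ a) = l a := by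
  classical
  unfold ext
  simp only [hρ.eq_iff]
  simp

theorem ext_lat {l : Fin r → ℂ} (hl : Lat l) : Lat (ext ρ l) := fun i =>
  IsGau.sum _ _ fun a _ => by
    split_ifs
    · exact hl a
    · exact IsGau.zero

theorem extm_add (A B : Fin r → Fin r → ℂ) : extm ρ (A + B) = extm ρ A + extm ρ B := by
  classical
  funext i k
  simp only [extm, Pi.add_apply, ← Finset.sum_add_distrib]
  refine Finset.sum_congr rfl fun a _ => Finset.sum_congr rfl fun b _ => ?_
  split_ifs <;> simp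

theorem extm_smul (t : ℝ) (A : Fin r → Fin r → ℂ) : extm ρ (t • A) = t • extm ρ A := by
  classical
  funext i k
  simp only [extm, Pi.smul_apply, Finset.smul_sum]
  refine Finset.sum_congr rfl fun a _ => Finset.sum_congr rfl fun b _ => ?_
  split_ifs <;> simp

theorem extm_sq (l : Fin r → ℂ) : extm ρ (sq l) = sq (ext ρ l) := by
  classical
  funext i k
  unfold extm sq ext
  rw [star_sum, Finset.sum_mul_sum]
  refine Finset.sum_congr rfl fun a _ => Finset.sum_congr rfl fun b _ => ?_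
  split_ifs <;> simp

theorem extm_zero : extm ρ 0 = 0 := by
  classical
  funext i k
  simp [extm]

theorem extm_sum (S : Multiset (Fin r → ℂ)) :
    extm ρ (S.map sq).sum = ((S.map (ext ρ)).map sq).sum := by
  induction S using Multiset.induction_on with
  | empty => simpa using extm_zero
  | cons l S ih => simp only [Multiset.map_cons, Multiset.sum_cons, extm_add, ih, extm_sq]

theorem RC.lift {A : Fin r → Fin r → ℂ} {β : ℝ} {J : Set (ι → ℂ)} {J' : Set (Fin r → ℂ)}
    (hA : (A, β) ∈ RC J') (hJ : ∀ l, ext ρ l ∈ J → l ∈ J') : (extm ρ A, β) ∈ RC J := by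
  obtain ⟨N, S, hN, hS, hsum, T, hTS, hT, hc⟩ := hA
  refine ⟨N, S.map (ext ρ), hN, ?_, ?_, T.map (ext ρ), Multiset.map_le_map hTS, ?_, ?_⟩
  · intro l hl
    obtain ⟨l', hl', rfl⟩ := Multiset.mem_map.1 hl
    exact ext_lat (hS l' hl')
  · rw [← extm_sum, ← hsum, extm_smul]
  · intro l hl
    obtain ⟨l', hl', rfl⟩ := Multiset.mem_map.1 hl
    exact fun h => hT l' hl' (hJ l' h)
  · rw [Multiset.card_map]
    exact hc

theorem sum_extm (A : Fin r → Fin r → ℂ) (u w : ι → ℂ) :
    ∑ i, ∑ k, extm ρ A i k * (u i * (starRingEnd ℂ) (w k)) =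
      ∑ a, ∑ b, A a b * (u (ρ a) * (starRingEnd ℂ) (w (ρ b))) := by
  classical
  unfold extm
  simp only [Finset.sum_mul, ite_mul, zero_mul]
  calc ∑ i, ∑ k, ∑ a, ∑ b, (if ρ a = i then if ρ b = k then
          A a b * (u i * (starRingEnd ℂ) (w k)) else 0 else 0)
      = ∑ a, ∑ b, ∑ i, ∑ k, (if ρ a = i then if ρ b = k then
          A a b * (u i * (starRingEnd ℂ) (w k)) else 0 else 0) := by
        rw [Finset.sum_congr rfl fun i _ => Finset.sum_comm (s := Finset.univ (α := ι))]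
        rw [Finset.sum_comm]
        refine Finset.sum_congr rfl fun a _ => ?_
        rw [Finset.sum_congr rfl fun i _ => Finset.sum_comm (s := Finset.univ (α := ι))]
        rw [Finset.sum_comm]
    _ = _ := by
        refine Finset.sum_congr rfl fun a _ => Finset.sum_congr rfl fun b _ => ?_
        rw [Finset.sum_eq_single (ρ a), Finset.sum_eq_single (ρ b)]
        · simp
        · intro k _ hk
          rw [if_pos rfl, if_neg (Ne.symm hk)]
        · simp
        · intro i _ hi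
          simp [Ne.symm hi]
        · simp

open scoped Classical in
/-- The indices which are not in the range of `ρ`. -/
noncomputable def co (ρ : Fin r → ι) : Finset ι := Finset.univ.filter fun i => ∀ a, ρ a ≠ i

theorem mem_co {i : ι} : i ∈ co ρ ↔ ∀ a, ρ a ≠ i := by
  classical
  simp [co]

open scoped Classical in
/-- The matrix of the extended form. -/
noncomputable def exA (ρ : Fin r → ι) (c : ℕ) (A : Fin r → Fin r → ℂ) : ι → ι → ℂ :=
  extm ρ A + ∑ i ∈ co ρ, (c : ℝ) • sq (Pi.single i 1)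

/-- The extended form. -/
noncomputable def exH (ρ : Fin r → ι) (c : ℕ) (h : (Fin r → ℂ) → (Fin r → ℂ) → ℂ)
    (u w : ι → ℂ) : ℂ := h (u ∘ ρ) (w ∘ ρ) + c * ∑ i ∈ co ρ, u i * (starRingEnd ℂ) (w i)

/-- The matrix of a form. -/
noncomputable def mx (h : (Fin r → ℂ) → (Fin r → ℂ) → ℂ) (a b : Fin r) : ℂ :=
  h (Pi.single a 1) (Pi.single b 1)

theorem herm_mx {h : (Fin r → ℂ) → (Fin r → ℂ) → ℂ} (hh : IsHermitian h) (u w : Fin r → ℂ) :
    h u w = ∑ a, ∑ b, mx h a b * (u a * (starRingEnd ℂ) (w b)) := by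
  have h2 : ∀ v w, h v w = ∑ i, v i * h (Pi.single i 1) w := by
    intro v w
    let L : (Fin r → ℂ) →ₗ[ℂ] ℂ :=
      { toFun := fun v => h v w
        map_add' := fun u v => hh.add_left u v w
        map_smul' := fun a v => hh.smul_left a v w }
    have h3 : v = ∑ i, v i • (Pi.single i 1 : Fin r → ℂ) := by
      ext i
      simp [Finset.sum_apply, Pi.single_apply]
    have h4 : h v w = L v := rfl
    rw [h4]
    conv_lhs => rw [h3]
    rw [map_sum]
    refine Finset.sum_congr rfl fun i _ => ?_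
    rw [map_smul]
    rfl
  rw [h2 u w]
  refine Finset.sum_congr rfl fun i _ => ?_
  have h3 : h (Pi.single i 1) w = (starRingEnd ℂ) (h w (Pi.single i 1)) := hh.symm _ _
  rw [h3, h2 w, map_sum, Finset.mul_sum]
  refine Finset.sum_congr rfl fun j _ => ?_
  rw [map_mul, ← hh.symm, mx]
  ring

theorem single_dot (i : ι) (v : ι → ℂ) [DecidableEq ι] : (Pi.single i 1 : ι → ℂ) ⬝ᵥ v = v i := by
  rw [single_dotProduct, one_mul]

theorem sum_sq (l u w : ι → ℂ) : ∑ i, ∑ k, sq l i k * (u i * (starRingEnd ℂ) (w k)) =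
    (l ⬝ᵥ u) * (starRingEnd ℂ) (l ⬝ᵥ w) := by
  unfold sq dotProduct
  rw [map_sum, Finset.sum_mul_sum]
  refine Finset.sum_congr rfl fun i _ => Finset.sum_congr rfl fun k _ => ?_
  rw [map_mul]
  have : star (l k) = (starRingEnd ℂ) (l k) := rfl
  rw [this]
  ring

theorem exH_eq {h : (Fin r → ℂ) → (Fin r → ℂ) → ℂ} (hh : IsHermitian h) (c : ℕ) (u w : ι → ℂ) :
    exH ρ c h u w = ∑ i, ∑ k, exA ρ c (mx h) i k * (u i * (starRingEnd ℂ) (w k)) := by
  classical
  unfold exH exA
  simp only [Pi.add_apply, add_mul, Finset.sum_add_distrib, Finset.sum_apply, Pi.smul_apply,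
    Finset.sum_mul]
  rw [sum_extm, herm_mx hh]
  congr 1
  have h1 : ∀ i j : ι, ∑ k, ∑ e ∈ co ρ, (c : ℝ) • sq (Pi.single e 1) i k *
      (u i * (starRingEnd ℂ) (w k)) = ∑ e ∈ co ρ, ∑ k, (c : ℝ) • sq (Pi.single e 1) i k *
      (u i * (starRingEnd ℂ) (w k)) := fun i _ => Finset.sum_comm
  rw [Finset.sum_congr rfl fun i _ => h1 i i, Finset.sum_comm, Finset.mul_sum]
  refine Finset.sum_congr rfl fun e _ => ?_
  have h2 := sum_sq (Pi.single e 1) u w
  rw [single_dot, single_dot] at h2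
  rw [← h2, Finset.mul_sum]
  refine Finset.sum_congr rfl fun i _ => ?_
  rw [Finset.mul_sum]
  refine Finset.sum_congr rfl fun k _ => ?_
  rw [Complex.real_smul]
  push_cast
  ring

theorem exH_herm {h : (Fin r → ℂ) → (Fin r → ℂ) → ℂ} (hh : IsHermitian h) (c : ℕ) :
    IsHermitian (exH ρ c h) where
  add_left u v w := by
    unfold exH
    have h1 : (u + v) ∘ ρ = u ∘ ρ + v ∘ ρ := rfl
    rw [h1, hh.add_left]
    simp only [Pi.add_apply, add_mul, Finset.sum_add_distrib]
    ring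
  smul_left a v w := by
    unfold exH
    have h1 : (a • v) ∘ ρ = a • (v ∘ ρ) := rfl
    rw [h1, hh.smul_left]
    simp only [Pi.smul_apply, smul_eq_mul, mul_assoc, ← Finset.mul_sum]
    ring
  symm v w := by
    unfold exH
    rw [map_add, ← hh.symm, map_mul, map_sum, Complex.conj_natCast]
    congr 2
    refine Finset.sum_congr rfl fun i _ => ?_
    rw [map_mul, Complex.conj_conj, mul_comm]

theorem exH_int {h : (Fin r → ℂ) → (Fin r → ℂ) → ℂ}
    (hint : ∀ u w, Lat u → Lat w → IsGau (h u w)) (c : ℕ) (u w : ι → ℂ) (hu : Lat u)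
    (hw : Lat w) : IsGau (exH ρ c h u w) :=
  (hint _ _ (fun a => hu _) fun a => hw _).add ((IsGau.natCast c).mul
    (IsGau.sum _ _ fun i _ => (hu i).mul (hw i).conj))

theorem lat_single {ι : Type*} [DecidableEq ι] (i : ι) : Lat (Pi.single i 1 : ι → ℂ) := by
  intro k
  rw [Pi.single_apply]
  split_ifs
  · exact IsGau.one
  · exact IsGau.zero

theorem exA_mem_of {A : Fin r → Fin r → ℂ} {J : Set (ι → ℂ)} {β : ℝ} (c : ℕ)
    (hA : (extm ρ A, β) ∈ RC J) : (exA ρ c A, β) ∈ RC J := by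
  classical
  have h1 : (∑ i ∈ co ρ, (((c : ℝ) • sq (Pi.single i 1), (0 : ℝ)) : (ι → ι → ℂ) × ℝ)) ∈ RC J :=
    RC.sum _ _ fun i _ => RC.sq_smul (lat_single i) c
  have h2 := RC.add hA h1
  have h3 : ((extm ρ A, β) + ∑ i ∈ co ρ, (((c : ℝ) • sq (Pi.single i 1), (0 : ℝ)) :
      (ι → ι → ℂ) × ℝ)) = (exA ρ c A, β) := by
    refine Prod.ext ?_ ?_
    · rw [Prod.fst_add, Prod.fst_sum]
      rfl
    · rw [Prod.snd_add, Prod.snd_sum]
      simp
  rwa [h3] at h2

open scoped Classical in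
theorem exA_mem_of' {A : Fin r → Fin r → ℂ} {J : Set (ι → ℂ)} {b c : ℕ} (hbc : b ≤ c)
    (hA : (extm ρ A, (0 : ℝ)) ∈ RC J) {i : ι} (hi : i ∈ co ρ) (hJ : Pi.single i 1 ∉ J) :
    (exA ρ c A, (b : ℝ)) ∈ RC J := by
  classical
  have h1 : (∑ k ∈ (co ρ).erase i, (((c : ℝ) • sq (Pi.single k 1), (0 : ℝ)) :
      (ι → ι → ℂ) × ℝ)) ∈ RC J := RC.sum _ _ fun i _ => RC.sq_smul (lat_single i) c
  have h0 := RC.nsmul c (RC.sq_mem' (J := J) (lat_single i) hJ)
  have h2 := RC.add (RC.add hA h0) h1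
  have h3 : (((extm ρ A, (0 : ℝ)) + (c : ℝ) • ((sq (Pi.single i 1), (1 : ℝ)) :
      (ι → ι → ℂ) × ℝ)) + ∑ k ∈ (co ρ).erase i, (((c : ℝ) • sq (Pi.single k 1), (0 : ℝ)) :
      (ι → ι → ℂ) × ℝ)) = (exA ρ c A, (c : ℝ)) := by
    refine Prod.ext ?_ ?_
    · rw [Prod.fst_add, Prod.fst_sum, Prod.fst_add, Prod.smul_fst]
      show extm ρ A + (c : ℝ) • sq (Pi.single i 1) + ∑ k ∈ (co ρ).erase i, (c : ℝ) •
        sq (Pi.single k 1) = exA ρ c A
      rw [exA, ← Finset.add_sum_erase _ _ hi, add_assoc]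
    · rw [Prod.snd_add, Prod.snd_sum, Prod.snd_add, Prod.smul_snd]
      simp
  rw [h3] at h2
  exact RC.mono h2 (by exact_mod_cast hbc)

end lift

/-- The matrix of a hermitian form. -/
theorem mx_q {h : (Fin r → ℂ) → (Fin r → ℂ) → ℂ} (hh : IsHermitian h) (v : Fin r → ℂ) :
    q (Matrix.of (mx h)) v = (h (star v) (star v)).re := by
  unfold q
  rw [herm_mx hh (star v) (star v)]
  congr 1
  unfold dotProduct mulVec dotProduct
  refine Finset.sum_congr rfl fun a _ => ?_
  rw [Finset.mul_sum]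
  refine Finset.sum_congr rfl fun b _ => ?_
  simp only [Pi.star_apply, Matrix.of_apply]
  have h1 : star (v b) = (starRingEnd ℂ) (v b) := rfl
  rw [h1, Complex.conj_conj]
  ring

theorem mx_herm {h : (Fin r → ℂ) → (Fin r → ℂ) → ℂ} (hh : IsHermitian h) :
    (Matrix.of (mx h)).IsHermitian := by
  ext a b
  rw [conjTranspose_apply, Matrix.of_apply, Matrix.of_apply, mx, mx]
  exact (hh.symm _ _).symm

theorem mx_eis {h : (Fin r → ℂ) → (Fin r → ℂ) → ℂ}
    (hint : ∀ u w, Lat u → Lat w → IsGau (h u w)) (a b : Fin r) : IsGau (Matrix.of (mx h) a b) :=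
  hint _ _ (lat_single a) (lat_single b)

theorem lat_star {v : ι → ℂ} (hv : Lat v) : Lat (star v) := fun i => (hv i).star

end Pool.Agent.T6.H34.GK
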