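import Pool.Agent.T6.H34.GK.NefC

/-!
# The cone conjecture for blow-ups of torus quotients: general form
-/

set_option autoImplicit false
set_option maxHeartbeats 400000

namespace Pool.Agent.T6.H34.GK

open Pool.Agent.R895 (BlBundle act IsClass N1s N1 form coef integral semiample effective span
  nefCone effCone Normalizes IsPullback)

open Matrix hiding IsHermitian
open Filter Topology
open Pool.Agent.Y167 (CData cone AffGrp Pol Cp cone_ind cone_add cone_smul cone_sum cone_le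
  mem_cone_self mem_cone_of_sum zero_mem_cone cone_cut cone_image cone_mono)
open Pool.Agent.Y167.CC (LinGrp Preserves IsFundDomain)

variable {ι : Type*} [Fintype ι] {r m : ℕ} {ρ : Fin r → ι}
  {j : (Fin r → ℂ) →ₗ[ℂ] (ι → ℂ)}

theorem cone_of_scaled {W : Type*} [AddCommGroup W] [Module ℝ W] {a : W} {S : Finset W} {k : ℝ}
    (hk : 0 < k) (h : k • a ∈ S) : a ∈ cone S := by
  have h1 := cone_smul (mem_cone_self h) (inv_nonneg.2 hk.le)
  rwa [smul_smul, inv_mul_cancel₀ hk.ne', one_smul] at h1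

/-- The group generated by the integral classes is preserved. -/
theorem closure_map {g : N1 (kum ι m) j ≃ₗ[ℝ] N1 (kum ι m) j}
    (hg : ∀ x ∈ integral (kum ι m) j, g x ∈ integral (kum ι m) j) {x : N1 (kum ι m) j}
    (hx : x ∈ AddSubgroup.closure (integral (kum ι m) j)) :
    g x ∈ AddSubgroup.closure (integral (kum ι m) j) := by
  have h1 : AddSubgroup.closure (integral (kum ι m) j) ≤
      (AddSubgroup.closure (integral (kum ι m) j)).comap
        (g : N1 (kum ι m) j ≃+ N1 (kum ι m) j).toAddMonoidHom := by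
    rw [AddSubgroup.closure_le]
    intro x hx
    exact AddSubgroup.subset_closure (hg x hx)
  exact h1 hx

/-- **The cone conjecture**, general form. -/
theorem core [Nonempty ι] (hj : IsExt ρ j) (hρ : Function.Injective ρ) (hr : r = 3)
    (𝒢 : LinGrp (N1 (kum ι m) j)) (h1 : Preserves 𝒢 (integral (kum ι m) j))
    (h2 : Preserves 𝒢 (nefCone (kum ι m) j ∩ effCone (kum ι m) j))
    (h3 : ∀ g u, IsPb g u → g ∈ 𝒢) :
    ∃ S : Finset (N1 (kum ι m) j), ↑S ⊆ integral (kum ι m) j ∧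
      cone S ⊆ nefCone (kum ι m) j ∩ effCone (kum ι m) j ∧
      IsFundDomain 𝒢 (nefCone (kum ι m) j ∩ effCone (kum ι m) j) (cone S) := by
  classical
  have hr' : 0 < r := by omega
  obtain ⟨y₀, hy0, hy1, hy2⟩ := exists_y₀ m hj hρ
  obtain ⟨Y, D⟩ := exists_cdata hj hr' hy0 hy1 hy2
  obtain ⟨F₁, hF₁, hcov⟩ := covering m hj hρ
  have h𝒢L : ∀ g ∈ 𝒢, ∀ x ∈ AddSubgroup.closure (integral (kum ι m) j),
      g x ∈ AddSubgroup.closure (integral (kum ι m) j) := fun g hg x hx =>
    closure_map (h1 g hg) hx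
  have hpd : ∀ (t : ℝ) (x : N1 (kum ι m) j), 0 < t → x - t • y₀ ∈ Nf m j →
      x ∈ Nf m j ∧ ∃ t : ℝ, 0 < t ∧ ∀ v, t * (std v v).re ≤ (frm x v v).re := by
    intro t x ht hx
    have h4 : x = (x - t • y₀) + t • y₀ := by abel
    refine ⟨?_, t * 8, by positivity, fun v => ?_⟩
    · rw [h4]
      exact Nf_add hx (Nf_smul ht.le D.y_N)
    · rw [h4, frm_add, Complex.add_re, frm_smul, Complex.re_ofReal_mul, hy1, re_twelve]
      have := hx.1 v
      linarith
  have hadd : ∀ x ∈ Nf m j, ∀ t : ℝ, 0 < t →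
      x + t • y₀ ∈ nefCone (kum ι m) j ∩ effCone (kum ι m) j := by
    intro x hx t ht
    obtain ⟨k1, k2⟩ := hpd t (x + t • y₀) ht (by rwa [add_sub_cancel_right])
    exact Cp_le hj hρ hr (Cp_of_pd hj hρ k1 k2)
  have h𝒢N : ∀ g ∈ 𝒢, ∀ x ∈ Nf m j, g x ∈ Nf m j := by
    intro g hg x hx
    refine mem_closed (y := g y₀) isClosed_Nf fun n => ?_
    have h4 := h2 g hg _ (hadd x hx (1 / ((n : ℝ) + 1)) (by positivity))
    rw [map_add, map_smul] at h4
    exact nefCone_le hj hρ h4.1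
  obtain ⟨S, hS1, hS2, hS3⟩ := D.domain 𝒢 h𝒢L h𝒢N F₁ hF₁ (by
    rintro x ⟨t, ht, hx⟩
    obtain ⟨k1, k2⟩ := hpd t x ht hx
    obtain ⟨g, u, hg, hgx⟩ := hcov x k1 k2
    exact ⟨g, h3 g u hg, hgx⟩)
  have hcone : ∀ x, x ∈ cone (S.image fun a => (4 : ℝ) • a) ↔ x ∈ cone S := by
    intro x
    constructor
    · refine fun h => cone_le (fun a ha => ?_) h
      obtain ⟨a', ha', rfl⟩ := Finset.mem_image.1 ha
      exact cone_smul (mem_cone_self ha') (by norm_num)
    · refine fun h => cone_le (fun a ha => ?_) h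
      exact cone_of_scaled (k := 4) (by norm_num)
        (Finset.mem_image_of_mem (fun a => (4 : ℝ) • a) ha)
  have hcone' : cone (S.image fun a => (4 : ℝ) • a) = cone S := Set.ext hcone
  refine ⟨S.image fun a => (4 : ℝ) • a, ?_, ?_, ?_, ?_⟩
  · intro a ha
    obtain ⟨a', ha', rfl⟩ := Finset.mem_image.1 ha
    exact six_int hj hρ (hS1 a' ha').1 (hS1 a' ha').2
  · rw [hcone']
    intro x hx
    exact Cp_le hj hρ hr ⟨S, hS1, hx⟩
  · ext x
    rw [← mem_Cp_iff hj hρ hr, hS2, hcone', Set.mem_iUnion₂]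
    constructor
    · rintro ⟨g, hg, hgx⟩
      exact ⟨g⁻¹, 𝒢.inv_mem hg, g x, hgx, g.symm_apply_apply x⟩
    · rintro ⟨g, hg, y, hy, rfl⟩
      refine ⟨g⁻¹, 𝒢.inv_mem hg, ?_⟩
      have : (g⁻¹ : N1 (kum ι m) j ≃ₗ[ℝ] N1 (kum ι m) j) (g y) = y := g.symm_apply_apply y
      rwa [this]
  · intro g hg hg1
    rw [hcone', Set.eq_empty_iff_forall_notMem]
    obtain ⟨φ, hφ0, hφ1, hφ2⟩ := hS3 g hg hg1
    rintro x ⟨hx, y, hy, rfl⟩
    have h4 := hφ2 y hy
    obtain ⟨w, hw⟩ : ∃ w, 0 < φ w := by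
      by_contra hcon
      push Not at hcon
      apply hφ0
      ext w
      have e1 := hcon w
      have e2 := hcon (-w)
      rw [map_neg] at e2
      show φ w = 0
      linarith
    have hcont : Continuous fun t : ℝ => g y - t • w := by fun_prop
    have hmem : ∀ᶠ t : ℝ in 𝓝 0, g y - t • w ∈ interior (cone S) := by
      apply hcont.continuousAt.eventually_mem
      rw [zero_smul, sub_zero]
      exact isOpen_interior.mem_nhds hx
    obtain ⟨ε, hε, hball⟩ := Metric.eventually_nhds_iff.1 hmem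
    have h5 := interior_subset (hball (y := ε / 2) (by
      rw [Real.dist_eq, sub_zero, abs_of_pos (by linarith)]
      linarith))
    have h6 := hφ1 _ h5
    rw [map_sub, map_smul, smul_eq_mul] at h6
    have h7 : 0 < ε / 2 * φ w := by positivity
    linarith

end Pool.Agent.T6.H34.GK
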