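import Pool.Agent.T6.H34.GK.Gau

/-!
# A theta function with simple zeros at the Gaussian integers
-/

set_option autoImplicit false

namespace Pool.Agent.T6.H34.GK

open Complex Filter Topology

/-- `q = exp (- 2 π)`. -/
noncomputable def qq : ℂ := exp (2 * Real.pi * I * I)

theorem norm_Qq : ‖qq‖ < 1 := by
  rw [qq, norm_exp, Real.exp_lt_one_iff]
  have h1 : (2 * (Real.pi : ℂ) * I * I).re = -(2 * Real.pi) := by
    simp only [mul_re, mul_im, ofReal_re, ofReal_im, I_re, I_im, re_ofNat, im_ofNat]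
    ring
  rw [h1]
  have := Real.pi_pos
  linarith

theorem Qq_ne : qq ≠ 0 := exp_ne_zero _

/-- The product `∏ (1 - q ^ (n + 1) Y)`. -/
noncomputable def PP (Y : ℂ) : ℂ := ∏' n : ℕ, (1 + (-(qq ^ (n + 1) * Y)))

theorem summable_Qq (Y : ℂ) : Summable fun n : ℕ => ‖-(qq ^ (n + 1) * Y)‖ := by
  have h1 : Summable fun n : ℕ => ‖qq‖ ^ (n + 1) * ‖Y‖ :=
    ((summable_nat_add_iff 1).2 (summable_geometric_of_lt_one (norm_nonneg _) norm_Qq)).mul_right _
  refine h1.congr fun n => ?_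
  rw [norm_neg, norm_mul, norm_pow]

theorem PP_rec (Y : ℂ) : PP Y = (1 - qq * Y) * PP (qq * Y) := by
  unfold PP
  rw [tprod_eq_zero_mul']
  · congr 1
    · ring
    · refine tprod_congr fun n => ?_
      ring
  · refine multipliable_one_add_of_summable ?_
    have := summable_Qq (qq * Y)
    refine this.congr fun n => ?_
    congr 2
    ring

theorem PP_ne {Y : ℂ} (h : ∀ n : ℕ, qq ^ (n + 1) * Y ≠ 1) : PP Y ≠ 0 := by
  refine tprod_one_add_ne_zero_of_summable (fun n => ?_) (summable_Qq Y)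
  intro h0
  apply h n
  linear_combination -h0

theorem PP_zero {Y : ℂ} (h : ∃ n : ℕ, qq ^ (n + 1) * Y = 1) : PP Y = 0 := by
  obtain ⟨n, hn⟩ := h
  refine tprod_of_exists_eq_zero ⟨n, ?_⟩
  rw [hn]
  ring

theorem PP_entire : Differentiable ℂ PP := by
  intro z
  have h1 : DifferentiableOn ℂ PP (Metric.ball 0 (‖z‖ + 1)) := by
    have h2 : HasProdLocallyUniformlyOn (fun (n : ℕ) (Y : ℂ) => 1 + (-(qq ^ (n + 1) * Y)))
        (fun Y => ∏' n : ℕ, (1 + (-(qq ^ (n + 1) * Y)))) (Metric.ball 0 (‖z‖ + 1)) := by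
      refine Summable.hasProdLocallyUniformlyOn_one_add (u := fun n => ‖qq‖ ^ (n + 1) * (‖z‖ + 1))
        Metric.isOpen_ball ?_ ?_ ?_
      · exact ((summable_nat_add_iff 1).2
          (summable_geometric_of_lt_one (norm_nonneg _) norm_Qq)).mul_right _
      · refine Filter.Eventually.of_forall fun n Y hY => ?_
        rw [norm_neg, norm_mul, norm_pow]
        rw [mem_ball_zero_iff] at hY
        exact mul_le_mul_of_nonneg_left hY.le (by positivity)
      · intro n
        fun_prop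
    refine h2.differentiableOn (.of_forall fun s => ?_) Metric.isOpen_ball
    have h3 : (fun Y : ℂ => ∏ n ∈ s, (1 + (-(qq ^ (n + 1) * Y)))) =
        ∏ n ∈ s, fun Y : ℂ => (1 + (-(qq ^ (n + 1) * Y))) := by
      rw [Finset.prod_fn]
    have h4 : Differentiable ℂ (fun Y : ℂ => ∏ n ∈ s, (1 + (-(qq ^ (n + 1) * Y)))) := by
      fun_prop
    exact h4.differentiableOn
  exact h1.differentiableAt (Metric.isOpen_ball.mem_nhds (by
    rw [mem_ball_zero_iff]; linarith))

/-- The function `(1 - X) ∏ (1 - q^n X) (1 - q^n / X)`. -/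
noncomputable def SS (X : ℂ) : ℂ := (1 - X) * PP X * PP X⁻¹

theorem SS_mul {X : ℂ} (hX : X ≠ 0) : SS (qq * X) = -X⁻¹ * SS X := by
  unfold SS
  have h1 := PP_rec X
  have h2 := PP_rec (qq * X)⁻¹
  have h3 : qq * (qq * X)⁻¹ = X⁻¹ := by
    rw [mul_inv, ← mul_assoc, mul_inv_cancel₀ Qq_ne, one_mul]
  rw [h3] at h2
  rw [h2, h1]
  field_simp
  ring

/-- The function `s (z) = SS (exp (2 π i z))`. -/
noncomputable def ss (z : ℂ) : ℂ := SS (exp (2 * Real.pi * I * z))

theorem ss_one (z : ℂ) : ss (z + 1) = ss z := by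
  unfold ss
  congr 1
  rw [mul_add, mul_one, exp_add, exp_two_pi_mul_I, mul_one]

theorem ss_om (z : ℂ) : ss (z + I) = -exp (-(2 * Real.pi * I * z)) * ss z := by
  unfold ss
  have h1 : exp (2 * Real.pi * I * (z + I)) = qq * exp (2 * Real.pi * I * z) := by
    rw [qq, ← exp_add]
    congr 1
    ring
  rw [h1, SS_mul (exp_ne_zero _), ← exp_neg]

theorem ss_entire : Differentiable ℂ ss := by
  unfold ss SS
  have h1 : Differentiable ℂ fun z : ℂ => exp (2 * Real.pi * I * z) := by fun_prop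
  have h2 : Differentiable ℂ fun z : ℂ => (exp (2 * Real.pi * I * z))⁻¹ :=
    h1.inv fun z => exp_ne_zero _
  have h3 := PP_entire.comp h1
  have h4 := PP_entire.comp h2
  exact (((differentiable_const _).sub h1).mul h3).mul h4

theorem ss_ne {z : ℂ} (h : ¬IsGau z) : ss z ≠ 0 := by
  have key : ∀ k : ℤ, exp (2 * Real.pi * I * z) ≠ exp (2 * Real.pi * I * (k * I)) := by
    intro k hk
    rw [exp_eq_exp_iff_exists_int] at hk
    obtain ⟨n, hn⟩ := hk
    apply h
    refine ⟨n, k, ?_⟩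
    have h2 : (2 * (Real.pi : ℂ) * I) ≠ 0 := two_pi_I_ne_zero
    apply mul_left_cancel₀ h2
    rw [hn]
    ring
  have hQ : ∀ k : ℤ, exp (2 * Real.pi * I * (k * I)) = qq ^ k := by
    intro k
    rw [qq, ← exp_int_mul]
    congr 1
    ring
  unfold ss SS
  refine mul_ne_zero (mul_ne_zero ?_ (PP_ne fun n h1 => ?_)) (PP_ne fun n h1 => ?_)
  · intro h0
    apply key 0
    rw [hQ, zpow_zero]
    linear_combination -h0
  · apply key (-(n + 1 : ℕ))
    rw [hQ, zpow_neg, zpow_natCast]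
    exact eq_inv_of_mul_eq_one_right h1
  · apply key ((n + 1 : ℕ))
    rw [hQ, zpow_natCast]
    have h2 := eq_inv_of_mul_eq_one_left h1
    rw [inv_inv] at h2
    exact h2.symm

/-- `κ = 1`. -/
noncomputable def kap : ℝ := 1

theorem kap_pos : 0 < kap := one_pos

theorem kap_one : (kap : ℂ) = 1 := by
  unfold kap
  exact ofReal_one

theorem kap_im {z : ℂ} (hz : IsGau z) : ∃ n : ℤ, kap * z.im = n := by
  obtain ⟨a, b, rfl⟩ := hz
  refine ⟨b, ?_⟩
  rw [(I_cases a b).2]
  unfold kap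
  rw [one_mul]

/-- The theta function with simple zeros at the Gaussian integers. -/
noncomputable def sig (z : ℂ) : ℂ := ss z * exp (Real.pi * kap / 2 * z ^ 2 - Real.pi * I * z)

theorem sig_entire : Differentiable ℂ sig := by
  unfold sig
  have h1 : Differentiable ℂ fun z : ℂ => exp (Real.pi * kap / 2 * z ^ 2 - Real.pi * I * z) := by
    fun_prop
  exact ss_entire.mul h1

/-- The property of `l` that the translation by `l` multiplies `sig` by the standard factor up to
sign. -/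
def Good (l ε : ℂ) : Prop := ∀ z, sig (z + l) =
  ε * exp (Real.pi * kap * (z * (starRingEnd ℂ) l + l * (starRingEnd ℂ) l / 2)) * sig z

theorem good_one : Good 1 (-1) := by
  intro z
  unfold sig
  rw [ss_one]
  have h1 : exp (Real.pi * kap / 2 * (z + 1) ^ 2 - Real.pi * I * (z + 1)) =
      -1 * exp (Real.pi * kap * (z * (starRingEnd ℂ) 1 + 1 * (starRingEnd ℂ) 1 / 2)) *
        exp (Real.pi * kap / 2 * z ^ 2 - Real.pi * I * z) := by
    have h2 : (-1 : ℂ) = exp (-(Real.pi * I)) := by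
      rw [exp_neg, exp_pi_mul_I]; norm_num
    rw [h2, ← exp_add, ← exp_add, map_one]
    congr 1
    ring
  rw [h1]
  ring

theorem good_om : Good I (-1) := by
  intro z
  unfold sig
  rw [ss_om]
  have h1 : exp (-(2 * Real.pi * I * z)) *
      exp (Real.pi * kap / 2 * (z + I) ^ 2 - Real.pi * I * (z + I)) =
      exp (Real.pi * kap * (z * (starRingEnd ℂ) I + I * (starRingEnd ℂ) I / 2)) *
        exp (Real.pi * kap / 2 * z ^ 2 - Real.pi * I * z) := by
    rw [← exp_add, ← exp_add]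
    congr 1
    rw [conj_I, kap_one]
    ring
  linear_combination -ss z * h1

theorem Good.neg {l ε : ℂ} (hε : ε * ε = 1) (h : Good l ε) : Good (-l) ε := by
  intro z
  have h1 := h (z + -l)
  rw [neg_add_cancel_right] at h1
  rw [h1, map_neg]
  have h2 : exp (Real.pi * kap * (z * -(starRingEnd ℂ) l + -l * -(starRingEnd ℂ) l / 2)) *
      exp (Real.pi * kap * ((z + -l) * (starRingEnd ℂ) l + l * (starRingEnd ℂ) l / 2)) = 1 := by
    rw [← exp_add, ← exp_zero]
    congr 1
    ring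
  linear_combination (-sig (z + -l)) * (ε * ε * h2 + hε)

theorem Good.add {l μ ε δ : ℂ} (hl : IsGau l) (hμ : IsGau μ) (hε : ε * ε = 1) (hδ : δ * δ = 1)
    (h : Good l ε) (h' : Good μ δ) : ∃ η : ℂ, η * η = 1 ∧ Good (l + μ) η := by
  obtain ⟨n, hn⟩ := kap_im (hμ.mul hl.conj)
  refine ⟨ε * δ * exp (Real.pi * I * n), ?_, fun z => ?_⟩
  · have h1 : exp (Real.pi * I * n) * exp (Real.pi * I * n) = 1 := by
      rw [← exp_add, exp_eq_one_iff]
      exact ⟨n, by ring⟩
    linear_combination (exp (Real.pi * I * n)) ^ 2 * (ε * ε * hδ + hε) + h1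
  · have h1 : z + (l + μ) = (z + μ) + l := by ring
    rw [h1, h, h']
    have h2 : exp (Real.pi * kap * ((z + μ) * (starRingEnd ℂ) l + l * (starRingEnd ℂ) l / 2)) *
        exp (Real.pi * kap * (z * (starRingEnd ℂ) μ + μ * (starRingEnd ℂ) μ / 2)) =
        exp (Real.pi * I * n) * exp (Real.pi * kap * (z * (starRingEnd ℂ) (l + μ) +
          (l + μ) * (starRingEnd ℂ) (l + μ) / 2)) := by
      rw [← exp_add, ← exp_add]
      congr 1
      have h3 : (n : ℂ) = kap * ((μ * (starRingEnd ℂ) l).im : ℂ) := by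
        rw [← ofReal_mul, hn, ofReal_intCast]
      have h4 : μ * (starRingEnd ℂ) l - (starRingEnd ℂ) μ * l =
          2 * ((μ * (starRingEnd ℂ) l).im : ℂ) * I := by
        have h5 := Complex.sub_conj (μ * (starRingEnd ℂ) l)
        rw [map_mul, conj_conj] at h5
        rw [h5]
        push_cast
        ring
      rw [h3, map_add]
      linear_combination (Real.pi * kap / 2 : ℂ) * h4
    linear_combination (ε * δ * sig z) * h2

theorem good_zero : Good 0 1 := by
  intro z
  simp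

theorem exists_good {l : ℂ} (hl : IsGau l) : ∃ ε : ℂ, ε * ε = 1 ∧ Good l ε ∧ Good (-l) ε := by
  have hnat : ∀ {u : ℂ}, IsGau u → Good u (-1) → ∀ n : ℕ, ∃ ε : ℂ, ε * ε = 1 ∧ Good (n * u) ε := by
    intro u hu h n
    induction n with
    | zero => exact ⟨1, by ring, by simpa using good_zero⟩
    | succ n ih =>
      obtain ⟨ε, h1, h2⟩ := ih
      obtain ⟨η, h3, h4⟩ := Good.add ((IsGau.natCast n).mul hu) hu h1 (by ring) h2 h
      exact ⟨η, h3, by push_cast; rwa [add_mul, one_mul]⟩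
  have hint : ∀ {u : ℂ}, IsGau u → Good u (-1) → ∀ n : ℤ, ∃ ε : ℂ, ε * ε = 1 ∧ Good (n * u) ε := by
    intro u hu h n
    rcases Int.eq_nat_or_neg n with ⟨k, rfl | rfl⟩
    · simpa using hnat hu h k
    · obtain ⟨ε, h1, h2⟩ := hnat hu h k
      exact ⟨ε, h1, by push_cast; rw [neg_mul]; exact h2.neg h1⟩
  obtain ⟨a, b, rfl⟩ := hl
  obtain ⟨ε, h1, h2⟩ := hint IsGau.one good_one a
  obtain ⟨δ, h3, h4⟩ := hint IsGau.omega good_om b
  obtain ⟨η, h5, h6⟩ := Good.add ((IsGau.intCast a).mul IsGau.one)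
    ((IsGau.intCast b).mul IsGau.omega) h1 h3 h2 h4
  rw [mul_one] at h6
  exact ⟨η, h5, h6, h6.neg h5⟩

theorem sig_ne {z : ℂ} (h : ¬IsGau z) : sig z ≠ 0 := mul_ne_zero (ss_ne h) (exp_ne_zero _)

theorem sig_zero : sig 0 = 0 := by
  unfold sig ss SS
  simp

theorem sig_eq_zero {z : ℂ} (h : IsGau z) : sig z = 0 := by
  obtain ⟨ε, -, h1, -⟩ := exists_good h
  have h2 := h1 0
  rw [zero_add, sig_zero, mul_zero] at h2
  exact h2

theorem PP_one : PP 1 ≠ 0 := by
  refine PP_ne fun n h => ?_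
  rw [mul_one] at h
  have h1 := congrArg norm h
  rw [norm_pow, norm_one] at h1
  exact absurd h1 (ne_of_lt (pow_lt_one₀ (norm_nonneg _) norm_Qq (Nat.succ_ne_zero n)))

theorem sig_deriv : ∃ c : ℂ, c ≠ 0 ∧ HasDerivAt sig c 0 := by
  refine ⟨-(2 * Real.pi * I) * PP 1 * PP 1, ?_, ?_⟩
  · exact mul_ne_zero (mul_ne_zero (neg_ne_zero.2 two_pi_I_ne_zero) PP_one) PP_one
  · -- `sig z = (1 - exp (2 π i z)) * R z`
    set R : ℂ → ℂ := fun z => PP (exp (2 * Real.pi * I * z)) * PP (exp (2 * Real.pi * I * z))⁻¹ *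
      exp (Real.pi * kap / 2 * z ^ 2 - Real.pi * I * z) with hR
    have hRd : Differentiable ℂ R := by
      have h1 : Differentiable ℂ fun z : ℂ => exp (2 * Real.pi * I * z) := by fun_prop
      have h2 : Differentiable ℂ fun z : ℂ => (exp (2 * Real.pi * I * z))⁻¹ :=
        h1.inv fun z => exp_ne_zero _
      have h5 : Differentiable ℂ fun z : ℂ =>
        exp (Real.pi * kap / 2 * z ^ 2 - Real.pi * I * z) := by fun_prop
      exact ((PP_entire.comp h1).mul (PP_entire.comp h2)).mul h5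
    have hs : sig = fun z => (1 - exp (2 * Real.pi * I * z)) * R z := by
      funext z
      simp only [sig, ss, SS, hR]
      ring
    have h1 : HasDerivAt (fun z : ℂ => 1 - exp (2 * Real.pi * I * z)) (-(2 * Real.pi * I)) 0 := by
      have h2 : HasDerivAt (fun z : ℂ => 2 * Real.pi * I * z) (2 * Real.pi * I) 0 := by
        simpa using (hasDerivAt_id (0 : ℂ)).const_mul (2 * Real.pi * I)
      have h3 := (h2.cexp).const_sub 1
      simpa using h3
    have h2 := h1.mul (hRd 0).hasDerivAt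
    have h3 : R 0 = PP 1 * PP 1 := by
      simp only [hR]
      simp
    rw [hs]
    refine h2.congr_deriv ?_
    rw [h3]
    simp
    ring

/-- The function `|sig z|² exp (-π κ |z|²)` is periodic. -/
theorem sig_norm {l : ℂ} (hl : IsGau l) (z : ℂ) :
    ‖sig (z + l)‖ ^ 2 * Real.exp (-(Real.pi * kap * normSq (z + l))) =
      ‖sig z‖ ^ 2 * Real.exp (-(Real.pi * kap * normSq z)) := by
  obtain ⟨ε, h1, h2, -⟩ := exists_good hl
  have hε : ‖ε‖ = 1 := by
    have h3 : ‖ε‖ * ‖ε‖ = 1 := by rw [← norm_mul, h1, norm_one]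
    nlinarith [norm_nonneg ε]
  rw [h2 z, norm_mul, norm_mul, hε, one_mul, norm_exp, mul_pow, ← Real.exp_nat_mul,
    mul_right_comm, ← Real.exp_add, mul_comm]
  congr 2
  have h4 : ((Real.pi : ℂ) * kap * (z * (starRingEnd ℂ) l + l * (starRingEnd ℂ) l / 2)).re =
      Real.pi * kap * ((z * (starRingEnd ℂ) l).re + normSq l / 2) := by
    have h5 : (Real.pi : ℂ) * kap * (z * (starRingEnd ℂ) l + l * (starRingEnd ℂ) l / 2) =
        ((Real.pi * kap : ℝ) : ℂ) * (z * (starRingEnd ℂ) l + ((normSq l / 2 : ℝ) : ℂ)) := by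
      rw [Complex.mul_conj]
      push_cast
      ring
    rw [h5, re_ofReal_mul, add_re, ofReal_re]
  rw [h4, normSq_add]
  push_cast
  ring

end Pool.Agent.T6.H34.GK
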