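import Pool.Agent.T6.H34.GK.Bun2

/-!
# Bounds for the classes of line bundles
-/

set_option autoImplicit false
set_option maxHeartbeats 400000

namespace Pool.Agent.T6.H34.GK

open Pool.Agent.R895 (BlBundle act IsClass N1s N1 form coef integral semiample effective span
  nefCone effCone Normalizes IsPullback)

open Complex Filter Topology Asymptotics
open Matrix hiding IsHermitian
open Pool.Agent.W594.SYZ2 (IsHermitian LineBundle latt IsChernForm)
open Pool.Agent.W594.SYZ2.TQ (h_add_right h_smul_right h_zero_left h_zero_right h_neg_left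
  h_sub_left h_re_symm IsPot im_int)
open Pool.Agent.Y167 (AffGrp)

variable {ι : Type*} [Fintype ι] {m : ℕ}

theorem kum_le : kum ι 1 ≤ kum ι m := by
  rintro f ⟨ζ, l, h1, h2, h3, h4⟩
  rw [pow_one] at h1
  exact ⟨ζ, l, by rw [h1, one_pow], h2, h3, h4⟩

/-- The restriction to the group of translations. -/
noncomputable def rs (L : BlBundle (kum ι m)) : LineBundle (kum ι 1) where
  e := fun γ v => L.e ⟨γ.1, kum_le γ.2⟩ v
  holo := fun γ => L.holo _
  ne_zero := fun γ v => L.ne_zero _ v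
  mul := fun γ δ v => L.mul ⟨γ.1, kum_le γ.2⟩ ⟨δ.1, kum_le δ.2⟩ v
  stab := fun γ v hv => by
    obtain ⟨ζ, l, h1, -, -, h4⟩ := kum_spec γ
    rw [pow_one] at h1
    have hl : l = 0 := by
      rw [h4, h1, one_smul] at hv
      simpa using hv
    have hγ : γ.1 = 1 := by
      ext v i
      rw [h4, h1, hl, one_smul, add_zero]
      rfl
    have h5 : (⟨γ.1, kum_le γ.2⟩ : kum ι m) = 1 := Subtype.ext hγ
    rw [h5]
    have h6 := L.mul 1 1 v
    rw [mul_one] at h6
    have h7 : act (1 : kum ι m) v = v := rfl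
    rw [h7] at h6
    exact (mul_eq_left₀ (L.ne_zero 1 v)).1 h6.symm

theorem chern_int {L : BlBundle (kum ι m)} {H : (ι → ℂ) → (ι → ℂ) → ℂ} (hL : L.IsChern H)
    {u w : ι → ℂ} (hu : Lat u) (hw : Lat w) : ∃ n : ℤ, (H u w).im = n := by
  obtain ⟨hH, F, hF, hFe⟩ := hL
  have hpot : IsPot (rs L) H F := ⟨hF, fun γ v => hFe ⟨γ.1, kum_le γ.2⟩ v⟩
  exact im_int hH hpot (show u ∈ latt (kum ι 1) from mem_kum_trans hu)
    (show w ∈ latt (kum ι 1) from mem_kum_trans hw)

theorem eis_of_kap {z : ℂ} (h1 : ∃ n : ℤ, kap * z.im = n) (h2 : ∃ n : ℤ, kap * (I * z).im = n) :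
    IsGau z := by
  obtain ⟨a, ha⟩ := h1
  obtain ⟨b, hb⟩ := h2
  unfold kap at ha hb
  rw [one_mul] at ha hb
  have e : (I * z).im = z.re := by simp
  rw [e] at hb
  refine ⟨b, a, ?_⟩
  apply Complex.ext
  · simp [hb]
  · simp [ha]

/-- The Chern form of a line bundle is `κ` times a form with values in the Gaussian integers. -/
theorem chern_eis {L : BlBundle (kum ι m)} {H : (ι → ℂ) → (ι → ℂ) → ℂ} (hL : L.IsChern H)
    {u w : ι → ℂ} (hu : Lat u) (hw : Lat w) : IsGau (H u w / kap) := by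
  have hk : (kap : ℂ) ≠ 0 := by exact_mod_cast kap_pos.ne'
  have e1 : ∀ z : ℂ, kap * (z / kap).im = z.im := by
    intro z
    rw [← im_ofReal_mul, mul_div_cancel₀ _ hk]
  refine eis_of_kap ?_ ?_
  · obtain ⟨n, hn⟩ := chern_int hL hu hw
    exact ⟨n, by rw [e1, hn]⟩
  · obtain ⟨n, hn⟩ := chern_int hL (u := I • u) (w := w) (fun i => IsGau.omega.mul (hu i)) hw
    refine ⟨n, ?_⟩
    rw [← mul_div_assoc, e1, ← hn, hL.1.smul_left]

theorem h_quad {H : (ι → ℂ) → (ι → ℂ) → ℂ} (hH : IsHermitian H) (w v : ι → ℂ) (z : ℂ) :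
    (H (w + z • v) (w + z • v)).re = (H w w).re + 2 * (z * H v w).re + normSq z * (H v v).re := by
  have e1 : H w v = (starRingEnd ℂ) (H v w) := hH.symm _ _
  have e2 : H (w + z • v) (w + z • v) = H w w + z * H v w + (starRingEnd ℂ) (z * H v w) +
      (normSq z : ℂ) * H v v := by
    rw [hH.add_left, h_add_right hH, h_add_right hH, hH.smul_left, hH.smul_left,
      h_smul_right hH, h_smul_right hH, e1, map_mul, ← Complex.mul_conj]
    ring
  rw [e2, add_re, add_re, add_re, conj_re, re_ofReal_mul]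
  ring

/-- A section vanishes on a line in a lattice direction if the order of vanishing at a point is
too large. -/
theorem sec_zero {L : BlBundle (kum ι m)} {H : (ι → ℂ) → (ι → ℂ) → ℂ} (hL : L.IsChern H)
    {s : (ι → ℂ) → ℂ} (hs : L.IsSection s) (w : ι → ℂ) {v : ι → ℂ} (hv : Lat v) (K : ℕ)
    (hord : (fun z : ℂ => s (w + z • v)) =O[𝓝 0] fun z : ℂ => ‖z‖ ^ K)
    (hA : (H v v).re < kap * K) : ∀ z : ℂ, s (w + z • v) = 0 := by
  obtain ⟨hH, F, hF, hFe⟩ := hL
  have hd : Differentiable ℂ fun z : ℂ => w + z • v := by fun_prop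
  refine liou (fun z => s (w + z • v)) (fun z => F (w + z • v) + Real.pi * z * H v w)
    (hs.holo.comp hd) ((hF.comp hd).add (by fun_prop)) (H v v).re K ?_ hord hA
  intro l hl z
  have hlv : Lat (l • v) := fun i => hl.mul (hv i)
  set γ : kum ι m := ⟨_, mem_kum_trans hlv⟩ with hγ
  have e1 : w + (z + l) • v = act γ (w + z • v) := by
    rw [hγ]
    show _ = AffineEquiv.constVAdd ℂ (ι → ℂ) (l • v) (w + z • v)
    rw [AffineEquiv.constVAdd_apply, vadd_eq_add, add_smul]
    abel
  have e2 := h_quad hH w v (z + l)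
  have e3 := h_quad hH w v z
  have e4 := hFe γ (w + z • v)
  rw [← e1] at e4
  have e5 : s (w + (z + l) • v) = L.e γ (w + z • v) * s (w + z • v) := by
    rw [e1, hs.eq]
  rw [e5, norm_mul, mul_pow, e4, e2, e3, mul_comm (Real.exp _) (‖s (w + z • v)‖ ^ 2), mul_assoc,
    ← Real.exp_add]
  congr 2
  have e6 : ∀ y : ℂ, (F (w + z • v) + Real.pi * y * H v w : ℂ).re =
      (F (w + z • v)).re + Real.pi * (y * H v w).re := by
    intro y
    rw [add_re, mul_assoc, re_ofReal_mul]
  have e7 : (F (w + (z + l) • v) + Real.pi * (z + l) * H v w : ℂ).re =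
      (F (w + (z + l) • v)).re + Real.pi * ((z + l) * H v w).re := by
    rw [add_re, mul_assoc, re_ofReal_mul]
  rw [e6, e7]
  ring

/-- The Chern form of a line bundle with a section is positive semidefinite on the lattice. -/
theorem chern_lat_nonneg {L : BlBundle (kum ι m)} {H : (ι → ℂ) → (ι → ℂ) → ℂ}
    (hL : L.IsChern H) {s : (ι → ℂ) → ℂ} (hs : L.IsSection s) (h0 : ∃ v, s v ≠ 0)
    {v : ι → ℂ} (hv : Lat v) : 0 ≤ (H v v).re := by
  by_contra hcon
  push Not at hcon
  obtain ⟨w, hw⟩ := h0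
  apply hw
  have h1 := sec_zero hL hs w hv 0 (by
    simp only [pow_zero]
    have hd : Differentiable ℂ fun z : ℂ => w + z • v := by fun_prop
    exact (hs.holo.comp hd).continuous.continuousAt.isBigO_one ℝ) (by simpa using hcon) 0
  simpa using h1

/-- A hermitian form which is nonnegative on the lattice is positive semidefinite. -/
theorem nonneg_of_lat {H : (ι → ℂ) → (ι → ℂ) → ℂ} (hH : IsHermitian H)
    (h : ∀ v, Lat v → 0 ≤ (H v v).re) (v : ι → ℂ) : 0 ≤ (H v v).re := by
  choose a ha1 ha2 using fun (n : ℕ) (i : ι) => exists_near (((n : ℂ) + 1) * v i)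
  set u : ℕ → ι → ℂ := fun n => ((n : ℂ) + 1)⁻¹ • a n with hu
  have hn0 : ∀ n : ℕ, ((n : ℂ) + 1) ≠ 0 := fun n => by exact_mod_cast Nat.succ_ne_zero n
  have hlim : Tendsto u atTop (𝓝 v) := by
    rw [tendsto_pi_nhds]
    intro i
    rw [tendsto_iff_norm_sub_tendsto_zero]
    refine squeeze_zero (fun _ => norm_nonneg _) (fun n => ?_)
      (tendsto_one_div_add_atTop_nhds_zero_nat (𝕜 := ℝ))
    have h1 : u n i - v i = -(((n : ℂ) + 1)⁻¹ * (((n : ℂ) + 1) * v i - a n i)) := by
      simp only [hu, Pi.smul_apply, smul_eq_mul]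
      have := hn0 n
      field_simp
      ring
    have h2 : ‖((n : ℂ) + 1) * v i - a n i‖ ≤ 1 := by
      have h3 := ha2 n i
      rw [normSq_eq_norm_sq] at h3
      nlinarith [norm_nonneg (((n : ℂ) + 1) * v i - a n i)]
    have h3 : ‖((n : ℂ) + 1)⁻¹‖ = 1 / ((n : ℝ) + 1) := by
      rw [norm_inv, one_div]
      congr 1
      have : ((n : ℂ) + 1) = (((n : ℝ) + 1 : ℝ) : ℂ) := by push_cast; rfl
      rw [this, Complex.norm_real, Real.norm_of_nonneg (by positivity)]
    rw [h1, norm_neg, norm_mul, h3]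
    calc 1 / ((n : ℝ) + 1) * ‖((n : ℂ) + 1) * v i - a n i‖ ≤ 1 / ((n : ℝ) + 1) * 1 :=
          mul_le_mul_of_nonneg_left h2 (by positivity)
      _ = _ := mul_one _
  classical
  have hcont : Continuous fun v => (H v v).re := by
    have h1 : ∀ v : ι → ℂ, (H v v) = ∑ i, ∑ j, v i * (starRingEnd ℂ) (v j) *
        H (Pi.single i 1) (Pi.single j 1) := by
      intro v
      have h2 : ∀ w, H v w = ∑ i, v i * H (Pi.single i 1) w := by
        intro w
        let L : (ι → ℂ) →ₗ[ℂ] ℂ :=
          { toFun := fun v => H v w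
            map_add' := fun u v => hH.add_left u v w
            map_smul' := fun a v => hH.smul_left a v w }
        have h3 : v = ∑ i, v i • (Pi.single i 1 : ι → ℂ) := by
          ext i
          simp [Finset.sum_apply, Pi.single_apply]
        have h4 : H v w = L v := rfl
        rw [h4]
        conv_lhs => rw [h3]
        rw [map_sum]
        refine Finset.sum_congr rfl fun i _ => ?_
        rw [map_smul]
        rfl
      rw [h2 v]
      refine Finset.sum_congr rfl fun i _ => ?_
      have h3 : H (Pi.single i 1) v = (starRingEnd ℂ) (H v (Pi.single i 1)) := hH.symm _ _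
      rw [h3, h2, map_sum, Finset.mul_sum]
      refine Finset.sum_congr rfl fun j _ => ?_
      rw [map_mul, ← hH.symm]
      ring
    have h4 : (fun v => (H v v).re) = fun v : ι → ℂ => (∑ i, ∑ j, v i * (starRingEnd ℂ) (v j) *
        H (Pi.single i 1) (Pi.single j 1)).re := funext fun v => by rw [← h1 v]
    rw [h4]
    refine Complex.continuous_re.comp ?_
    refine continuous_finsetSum _ fun i _ => continuous_finsetSum _ fun j _ => ?_
    have h5 : Continuous fun v : ι → ℂ => (starRingEnd ℂ) (v j) :=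
      Complex.continuous_conj.comp (continuous_apply j)
    fun_prop
  have h1 : Tendsto (fun n => (H (u n) (u n)).re) atTop (𝓝 (H v v).re) :=
    (hcont.tendsto v).comp hlim
  refine ge_of_tendsto' h1 fun n => ?_
  have h2 : H (u n) (u n) = ((normSq ((n : ℂ) + 1)⁻¹ : ℝ) : ℂ) * H (a n) (a n) := by
    simp only [hu]
    rw [hH.smul_left, h_smul_right hH, ← mul_assoc, Complex.mul_conj]
  rw [h2, re_ofReal_mul]
  exact mul_nonneg (normSq_nonneg _) (h _ (ha1 n))

theorem pow_chern {L : BlBundle (kum ι m)} {H : (ι → ℂ) → (ι → ℂ) → ℂ} (hL : L.IsChern H)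
    (N : ℕ) : (L.pow N).IsChern fun u w => N * H u w := by
  obtain ⟨hH, F, hF, hFe⟩ := hL
  refine ⟨⟨fun u v w => ?_, fun a v w => ?_, fun v w => ?_⟩, fun v => N * F v,
    hF.const_mul _, fun γ v => ?_⟩
  · rw [hH.add_left]; ring
  · rw [hH.smul_left]; ring
  · rw [map_mul, ← hH.symm, Complex.conj_natCast]
  · have h1 : (L.pow N).e γ v = L.e γ v ^ N := rfl
    rw [h1, norm_pow, ← pow_mul, mul_comm N 2, pow_mul, hFe, ← Real.exp_nat_mul]
    congr 1
    have h2 : ∀ z : ℂ, ((N : ℂ) * z).re = N * z.re := by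
      intro z
      have : (N : ℂ) = ((N : ℝ) : ℂ) := by push_cast; rfl
      rw [this, re_ofReal_mul]
    rw [h2, h2, h2, h2]
    ring

/-- The coefficient of a semiample line bundle is nonnegative. -/
theorem semiample_nonneg [Nonempty ι] {L : BlBundle (kum ι m)} (hsa : L.IsSemiample) :
    0 ≤ L.k := by
  by_contra hcon
  push Not at hcon
  obtain ⟨N, hN, s, hs, c, hc, hlim⟩ := hsa.exc (fun _ => 1) (by
    intro h
    have := congrFun h (Classical.arbitrary ι)
    simp at this)
  apply hc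
  refine tendsto_nhds_unique hlim ?_
  have hk : (L.pow N).k = N * L.k := rfl
  obtain ⟨n, hn⟩ : ∃ n : ℕ, (L.pow N).k = -((n : ℤ) + 1) := by
    have h1 : (L.pow N).k < 0 := by
      rw [hk]
      have : (0 : ℤ) < N := by exact_mod_cast hN
      nlinarith
    refine ⟨(-(L.pow N).k - 1).toNat, ?_⟩
    rw [Int.toNat_of_nonneg (by omega)]
    ring
  have h1 : ∀ t : ℂ, s (t • fun _ => 1) / t ^ (L.pow N).k = s (t • fun _ => 1) * t ^ (n + 1) := by
    intro t
    rw [hn, _root_.zpow_neg, div_inv_eq_mul]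
    congr 1
  simp only [h1]
  have h2 : Continuous fun t : ℂ => s (t • fun _ => (1 : ℂ)) * t ^ (n + 1) := by
    have h3 : Continuous fun t : ℂ => (t • fun _ => (1 : ℂ) : ι → ℂ) := by fun_prop
    exact (hs.holo.continuous.comp h3).mul (continuous_pow _)
  have h3 := h2.tendsto 0
  rw [zero_pow (Nat.succ_ne_zero n), mul_zero] at h3
  exact h3.mono_left nhdsWithin_le_nhds

/-- **The upper bound** for the coefficient of a semiample line bundle. -/
theorem semiample_le [Nonempty ι] {L : BlBundle (kum ι m)} {H : (ι → ℂ) → (ι → ℂ) → ℂ}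
    (hL : L.IsChern H) (hsa : L.IsSemiample) {v : ι → ℂ} (hv : Lat v) (hv0 : v ≠ 0) :
    kap * L.k ≤ (H v v).re := by
  by_contra hcon
  push Not at hcon
  have hk0 := semiample_nonneg hsa
  obtain ⟨N, hN, s, hs, c, hc, hlim⟩ := hsa.exc v hv0
  apply hc
  refine tendsto_nhds_unique hlim ?_
  have hk : (L.pow N).k = N * L.k := rfl
  have hkn : (((L.pow N).k.toNat : ℕ) : ℝ) = N * L.k := by
    have h1 : 0 ≤ (L.pow N).k := by rw [hk]; positivity
    have h2 : (((L.pow N).k.toNat : ℕ) : ℤ) = N * L.k := by rw [Int.toNat_of_nonneg h1, hk]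
    exact_mod_cast h2
  have h0 : ∀ z : ℂ, s (0 + z • v) = 0 := by
    refine sec_zero (pow_chern hL N) hs 0 hv (L.pow N).k.toNat ?_ ?_
    · have h1 : Tendsto (fun z : ℂ => 0 + z • v) (𝓝 0) (𝓝 0) := by
        have h2 : Continuous fun z : ℂ => 0 + z • v := by fun_prop
        simpa using h2.tendsto 0
      have h2 := hs.ord.comp_tendsto h1
      refine h2.trans ?_
      refine IsBigO.of_bound (‖v‖ ^ (L.pow N).k.toNat) (Eventually.of_forall fun z => ?_)
      rw [Function.comp_apply, zero_add, norm_smul, mul_pow, norm_mul, mul_comm]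
      simp
    · have h2 : ((N : ℂ) * H v v).re = N * (H v v).re := by
        have : (N : ℂ) = ((N : ℝ) : ℂ) := by push_cast; rfl
        rw [this, re_ofReal_mul]
      rw [h2, hkn]
      have hNr : (0 : ℝ) < N := by exact_mod_cast hN
      nlinarith
  have h1 : ∀ t : ℂ, s (t • v) / t ^ (L.pow N).k = 0 := by
    intro t
    have := h0 t
    rw [zero_add] at this
    rw [this, zero_div]
  simp only [h1]
  exact tendsto_const_nhds

end Pool.Agent.T6.H34.GK
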